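import Mathlib

/-! Multigraph notions for majority neighbour sum distinguishing colourings. -/

open Finset

namespace Pool.Agent.P.MP_0ad50f_co

variable {W E : Type} [DecidableEq W]

/-- sum of an edge function over the edges of `D` at `v` -/
def dsum {R : Type} [AddCommMonoid R] (s t : E → W) (D : Finset E) (f : E → R) (v : W) : R :=
  ∑ e ∈ D, if s e = v ∨ t e = v then f e else 0

/-- number of edges of `D` at `v` -/
def deg (s t : E → W) (D : Finset E) (v : W) : ℕ := #{e ∈ D | s e = v ∨ t e = v}

/-- number of edges of `D` with exactly one end in `X` -/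
def cut (s t : E → W) (D : Finset E) (X : Finset W) : ℕ := #{e ∈ D | ¬ (s e ∈ X ↔ t e ∈ X)}

/-- no loops and no parallel edges -/
def Simple (s t : E → W) : Prop :=
  (∀ e, s e ≠ t e) ∧ ∀ e e', s(s e, t e) = s(s e', t e') → e = e'

lemma dsum_eq_filter {R : Type} [AddCommMonoid R] (s t : E → W) (D : Finset E) (f : E → R)
    (v : W) : dsum s t D f v = ∑ e ∈ D with (s e = v ∨ t e = v), f e := by
  unfold dsum; rw [Finset.sum_filter]

lemma dsum_congr {R : Type} [AddCommMonoid R] (s t : E → W) (D : Finset E) (f g : E → R)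
    (h : ∀ e ∈ D, f e = g e) (v : W) : dsum s t D f v = dsum s t D g v := by
  unfold dsum; exact Finset.sum_congr rfl fun e he => by rw [h e he]

lemma dsum_add {R : Type} [AddCommMonoid R] (s t : E → W) (D : Finset E) (f g : E → R) (v : W) :
    dsum s t D (fun e => f e + g e) v = dsum s t D f v + dsum s t D g v := by
  simp only [dsum_eq_filter, Finset.sum_add_distrib]

lemma dsum_mul {R : Type} [Semiring R] (s t : E → W) (D : Finset E) (c : R) (f : E → R) (v : W) :
    dsum s t D (fun e => c * f e) v = c * dsum s t D f v := by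
  simp only [dsum_eq_filter, Finset.mul_sum]

lemma dsum_const {R : Type} [Semiring R] (s t : E → W) (D : Finset E) (c : R) (v : W) :
    dsum s t D (fun _ => c) v = (deg s t D v : R) * c := by
  simp only [dsum_eq_filter, deg, Finset.sum_const, nsmul_eq_mul]

lemma dsum_cast (s t : E → W) (D : Finset E) (f : E → ℤ) (v : W) :
    ((dsum s t D f v : ℤ) : ℝ) = dsum s t D (fun e => (f e : ℝ)) v := by
  simp only [dsum_eq_filter]; push_cast; rfl

lemma dsum_split {R : Type} [AddCommMonoid R] (s t : E → W) (D : Finset E) (p : E → Prop)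
    [DecidablePred p] (f : E → R) (v : W) :
    dsum s t D f v = dsum s t (D.filter p) f v + dsum s t (D.filter fun e => ¬ p e) f v := by
  unfold dsum; rw [Finset.sum_filter_add_sum_filter_not]

lemma deg_eq_dsum (s t : E → W) (D : Finset E) (v : W) :
    (deg s t D v : ℤ) = dsum s t D (fun _ => (1 : ℤ)) v := by
  rw [dsum_const, mul_one]

lemma deg_split (s t : E → W) (D : Finset E) (p : E → Prop) [DecidablePred p] (v : W) :
    deg s t D v = deg s t (D.filter p) v + deg s t (D.filter fun e => ¬ p e) v := by
  have := dsum_split s t D p (fun _ => (1 : ℤ)) v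
  simp only [← deg_eq_dsum] at this
  exact_mod_cast this

lemma deg_mono (s t : E → W) {D D' : Finset E} (h : D ⊆ D') (v : W) :
    deg s t D v ≤ deg s t D' v :=
  Finset.card_le_card (Finset.filter_subset_filter _ h)

lemma deg_le_card (s t : E → W) (D : Finset E) (v : W) : deg s t D v ≤ D.card :=
  Finset.card_filter_le _ _

lemma cut_split (s t : E → W) (D : Finset E) (p : E → Prop) [DecidablePred p] (X : Finset W) :
    cut s t D X = cut s t (D.filter p) X + cut s t (D.filter fun e => ¬ p e) X := by
  unfold cut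
  rw [Finset.filter_comm, Finset.filter_comm (fun e => ¬ p e),
    Finset.card_filter_add_card_filter_not]

lemma cut_mono (s t : E → W) {D D' : Finset E} (h : D ⊆ D') (X : Finset W) :
    cut s t D X ≤ cut s t D' X :=
  Finset.card_le_card (Finset.filter_subset_filter _ h)

lemma cut_singleton (s t : E → W) (D : Finset E) (hl : ∀ e ∈ D, s e ≠ t e) (v : W) :
    cut s t D {v} = deg s t D v := by
  unfold cut deg
  congr 1
  refine Finset.filter_congr fun e he => ?_
  have := hl e he
  simp only [mem_singleton]
  by_cases h1 : s e = v <;> by_cases h2 : t e = v <;> simp_all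

lemma abs_dsum_le (s t : E → W) (D : Finset E) (f : E → ℤ) (c : ℤ) (h : ∀ e ∈ D, |f e| ≤ c)
    (v : W) : |dsum s t D f v| ≤ c * deg s t D v := by
  rw [dsum_eq_filter]
  refine (Finset.abs_sum_le_sum_abs _ _).trans ?_
  refine (Finset.sum_le_sum fun e he => h e (mem_filter.1 he).1).trans ?_
  simp [deg, mul_comm]

lemma abs_dsum_le_real (s t : E → W) (D : Finset E) (f : E → ℝ) (c : ℝ)
    (h : ∀ e ∈ D, |f e| ≤ c) (v : W) : |dsum s t D f v| ≤ c * deg s t D v := by
  rw [dsum_eq_filter]
  refine (Finset.abs_sum_le_sum_abs _ _).trans ?_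
  refine (Finset.sum_le_sum fun e he => h e (mem_filter.1 he).1).trans ?_
  simp [deg, mul_comm]

end Pool.Agent.P.MP_0ad50f_co
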