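import Pool.Agent.P.MP_0ad50f_co.Basic

/-! A weighted maximum cut into four classes. -/

open Finset

namespace Pool.Agent.P.MP_0ad50f_co

namespace LabelX

/-- weight of an edge whose ends carry the labels `a` and `b` -/
def wt (a b : Bool × Bool) : ℤ :=
  if a.1 = b.1 then (if a.2 = b.2 then 0 else 19) else 20

/-- add `g` to the label when the flag is set -/
def fl (g a : Bool × Bool) (x : Bool) : Bool × Bool :=
  if x then (xor a.1 g.1, xor a.2 g.2) else a

lemma cut_eq {W E : Type} [Fintype E] [DecidableEq W] (s t : E → W) (p : E → Prop)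
    [DecidablePred p] (X : Finset W) :
    (cut s t {e | p e} X : ℤ) =
      ∑ e, if p e ∧ decide (s e ∈ X) ≠ decide (t e ∈ X) then 1 else 0 := by
  unfold cut
  rw [Finset.filter_filter, Finset.card_filter]
  push_cast
  refine Finset.sum_congr rfl fun e _ => ?_
  by_cases h1 : s e ∈ X <;> by_cases h2 : t e ∈ X <;> simp [h1, h2]

lemma edge1 (a b : Bool × Bool) (x y : Bool) :
    (wt (fl (true, false) a x) (fl (true, false) b y) - wt a b) +
      (wt (fl (true, true) a x) (fl (true, true) b y) - wt a b) =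
    40 * (if (a.1 = b.1 ∧ a.2 = b.2) ∧ x ≠ y then 1 else 0) +
      2 * (if (a.1 = b.1 ∧ a.2 ≠ b.2) ∧ x ≠ y then 1 else 0) -
      21 * (if a.1 ≠ b.1 ∧ x ≠ y then 1 else 0) := by
  obtain ⟨a1, a2⟩ := a
  obtain ⟨b1, b2⟩ := b
  cases a1 <;> cases a2 <;> cases b1 <;> cases b2 <;> cases x <;> cases y <;> decide

lemma edge2 (a b : Bool × Bool) (x y : Bool) :
    wt (fl (false, true) a x) (fl (false, true) b y) - wt a b =
    19 * (if (a.1 = b.1 ∧ a.2 = b.2) ∧ x ≠ y then 1 else 0) -
      19 * (if (a.1 = b.1 ∧ a.2 ≠ b.2) ∧ x ≠ y then 1 else 0) := by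
  obtain ⟨a1, a2⟩ := a
  obtain ⟨b1, b2⟩ := b
  cases a1 <;> cases a2 <;> cases b1 <;> cases b2 <;> cases x <;> cases y <;> decide

end LabelX

/-- TASK Label -/
theorem label {W E : Type} [Fintype W] [Fintype E] [DecidableEq W] (s t : E → W) :
    ∃ side par : W → Bool, ∀ X : Finset W,
      40 * cut s t {e | side (s e) = side (t e) ∧ par (s e) = par (t e)} X +
          2 * cut s t {e | side (s e) = side (t e) ∧ par (s e) ≠ par (t e)} X ≤
        21 * cut s t {e | side (s e) ≠ side (t e)} X ∧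
      cut s t {e | side (s e) = side (t e) ∧ par (s e) = par (t e)} X ≤
        cut s t {e | side (s e) = side (t e) ∧ par (s e) ≠ par (t e)} X := by
  obtain ⟨l, -, hl⟩ := Finset.exists_max_image (univ : Finset (W → Bool × Bool))
    (fun l => ∑ e, LabelX.wt (l (s e)) (l (t e))) ⟨fun _ => (true, true), mem_univ _⟩
  refine ⟨fun v => (l v).1, fun v => (l v).2, fun X => ?_⟩
  have key : ∀ g : Bool × Bool,
      ∑ e, (LabelX.wt (LabelX.fl g (l (s e)) (decide (s e ∈ X)))
        (LabelX.fl g (l (t e)) (decide (t e ∈ X))) - LabelX.wt (l (s e)) (l (t e))) ≤ 0 := by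
    intro g
    have := hl (fun v => LabelX.fl g (l v) (decide (v ∈ X))) (mem_univ _)
    rw [Finset.sum_sub_distrib]
    linarith
  have h0 := LabelX.cut_eq s t
    (fun e => (l (s e)).1 = (l (t e)).1 ∧ (l (s e)).2 = (l (t e)).2) X
  have h1 := LabelX.cut_eq s t
    (fun e => (l (s e)).1 = (l (t e)).1 ∧ (l (s e)).2 ≠ (l (t e)).2) X
  have h2 := LabelX.cut_eq s t (fun e => (l (s e)).1 ≠ (l (t e)).1) X
  constructor
  · have a := add_nonpos (key (true, false)) (key (true, true))
    rw [← Finset.sum_add_distrib] at a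
    simp only [LabelX.edge1] at a
    rw [Finset.sum_sub_distrib, Finset.sum_add_distrib, ← Finset.mul_sum, ← Finset.mul_sum,
      ← Finset.mul_sum, ← h0, ← h1, ← h2] at a
    zify
    linarith
  · have a := key (false, true)
    simp only [LabelX.edge2] at a
    rw [Finset.sum_sub_distrib, ← Finset.mul_sum, ← Finset.mul_sum, ← h0, ← h1] at a
    zify
    linarith

end Pool.Agent.P.MP_0ad50f_co
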