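import Pool.Agent.P.MP_0ad50f_co.Basic

/-! Thin sets of edges at vertices of large degree. -/

open Finset

namespace Pool.Agent.P.MP_0ad50f_co

section aux

variable {W E : Type} [DecidableEq W]

lemma thin_submod (s t : E → W) (D : Finset E) (X Y : Finset W) :
    cut s t D (X ∪ Y) + cut s t D (X ∩ Y) ≤ cut s t D X + cut s t D Y := by
  simp only [cut, card_filter, ← sum_add_distrib]
  refine sum_le_sum fun e _ => ?_
  by_cases a : s e ∈ X <;> by_cases b : t e ∈ X <;> by_cases c : s e ∈ Y <;>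
    by_cases d : t e ∈ Y <;> simp [a, b, c, d]

lemma thin_add (s t : E → W) (D : Finset E) {X Y : Finset W} (h : Y ⊆ X)
    (hn : ∀ e ∈ D, ¬ ((s e ∈ Y ∧ t e ∈ X ∧ t e ∉ Y) ∨ (t e ∈ Y ∧ s e ∈ X ∧ s e ∉ Y))) :
    cut s t D X = cut s t D Y + cut s t D (X \ Y) := by
  simp only [cut, card_filter, ← sum_add_distrib]
  refine sum_congr rfl fun e he => ?_
  have h1 := hn e he
  have h2 := @h (s e)
  have h3 := @h (t e)
  by_cases a : s e ∈ X <;> by_cases b : t e ∈ X <;> by_cases c : s e ∈ Y <;>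
    by_cases d : t e ∈ Y <;> simp_all

lemma thin_compl [Fintype W] (s t : E → W) (D : Finset E) (X : Finset W) :
    cut s t D Xᶜ = cut s t D X := by
  unfold cut
  congr 1
  refine filter_congr fun e _ => ?_
  simp only [mem_compl]
  tauto

/-- Every vertex of `X` is joined to `A` inside `X`. -/
def thinConn (s t : E → W) (D : Finset E) (A X : Finset W) : Prop :=
  ∀ Y : Finset W, A ⊆ Y → Y ⊆ X → Y ≠ X →
    ∃ e ∈ D, (s e ∈ Y ∧ t e ∈ X ∧ t e ∉ Y) ∨ (t e ∈ Y ∧ s e ∈ X ∧ s e ∉ Y)

open Classical in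
/-- Edges from `w` into a small cut that is connected to `A`. -/
noncomputable def thinBad (s t : E → W) (D : Finset E) (w : W) (B : ℕ) (A : Finset W) :
    Finset E :=
  {e ∈ D | ∃ X : Finset W, A ⊆ X ∧ w ∉ X ∧ cut s t D X ≤ B ∧ thinConn s t D A X ∧
    ((s e = w ∧ t e ∈ X) ∨ (t e = w ∧ s e ∈ X))}

lemma thin_S (B j : ℕ) : ∃ f : ℕ, ∀ (W E : Type) [Fintype W] [DecidableEq W] [DecidableEq E]
    (s t : E → W) (D : Finset E) (w : W) (A : Finset W), w ∉ A →
    (∀ X : Finset W, A ⊆ X → w ∉ X → B + 1 ≤ cut s t D X + j) →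
    (thinBad s t D w B A).card ≤ f := by
  induction j with
  | zero =>
    refine ⟨0, fun W E _ _ _ s t D w A _ h => ?_⟩
    rw [Nat.le_zero, card_eq_zero, eq_empty_iff_forall_notMem]
    intro e he
    simp only [thinBad, mem_filter] at he
    obtain ⟨-, X, h1, h2, h3, -⟩ := he
    have := h X h1 h2
    omega
  | succ j ih =>
    obtain ⟨f, hf⟩ := ih
    refine ⟨B + B * f, fun W E _ _ _ s t D w A hA h => ?_⟩
    rcases (thinBad s t D w B A).eq_empty_or_nonempty with h0 | ⟨e0, he0⟩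
    · simp [h0]
    obtain ⟨X1, hX1, hm1⟩ := exists_min_image {X : Finset W | A ⊆ X ∧ w ∉ X} (cut s t D)
      ⟨A, by simp [hA]⟩
    obtain ⟨X0, hX0, hm0⟩ := exists_max_image
      {X : Finset W | A ⊆ X ∧ w ∉ X ∧ cut s t D X = cut s t D X1} Finset.card
      ⟨X1, by simpa using hX1⟩
    simp only [mem_filter, mem_univ, true_and] at hX1 hm1 hX0 hm0
    obtain ⟨a0, w0, c0⟩ := hX0
    have hmin : ∀ X, A ⊆ X → w ∉ X → cut s t D X0 ≤ cut s t D X := fun X h1 h2 =>
      c0 ▸ hm1 X ⟨h1, h2⟩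
    have hB : cut s t D X0 ≤ B := by
      simp only [thinBad, mem_filter] at he0
      obtain ⟨-, X, h1, h2, h3, -⟩ := he0
      exact (hmin X h1 h2).trans h3
    set C : Finset E := {e ∈ D | ¬ (s e ∈ X0 ↔ t e ∈ X0)} with hC
    have hCB : C.card ≤ B := hB
    let out : E → W := fun e => if s e ∈ X0 then t e else s e
    have hsub : thinBad s t D w B A ⊆ C ∪ ({e ∈ C | out e ≠ w}).biUnion
        fun e => thinBad s t D w B (insert (out e) X0) := by
      intro e he
      simp only [thinBad, mem_filter] at he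
      obtain ⟨heD, X, h1, h2, h3, h4, h5⟩ := he
      by_cases hX : X ⊆ X0
      · refine mem_union_left _ (mem_filter.2 ⟨heD, ?_⟩)
        rcases h5 with ⟨a, b⟩ | ⟨a, b⟩
        · simp [a, w0, hX b]
        · simp [a, w0, hX b]
      · obtain ⟨e', he', h6⟩ := h4 (X ∩ X0) (subset_inter h1 a0) inter_subset_left
          fun e => hX (e ▸ inter_subset_right)
        have h7 : e' ∈ C ∧ out e' ∈ X := by
          simp only [mem_inter, not_and] at h6
          rcases h6 with ⟨a, b, c⟩ | ⟨a, b, c⟩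
          · exact ⟨mem_filter.2 ⟨he', by simp [a.2, c b]⟩, by simp [out, a.2, b]⟩
          · exact ⟨mem_filter.2 ⟨he', by simp [a.2, c b]⟩, by simp [out, c b, b]⟩
        refine mem_union_right _ (mem_biUnion.2 ⟨e', mem_filter.2 ⟨h7.1, fun e => h2 (e ▸ h7.2)⟩, ?_⟩)
        simp only [thinBad, mem_filter]
        refine ⟨heD, X ∪ X0, insert_subset (mem_union_left _ h7.2) subset_union_right,
          by simp [h2, w0], ?_, fun Y y1 y2 y3 => ?_, ?_⟩
        · have := thin_submod s t D X X0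
          have := hmin (X ∩ X0) (subset_inter h1 a0) (by simp [h2])
          omega
        · have y0 : X0 ⊆ Y := (subset_insert _ _).trans y1
          obtain ⟨e2, he2, h8⟩ := h4 (Y ∩ X) (subset_inter (a0.trans y0) h1) inter_subset_right
            fun e => y3 (y2.antisymm (union_subset (e ▸ inter_subset_left) y0))
          refine ⟨e2, he2, ?_⟩
          simp only [mem_inter, not_and] at h8
          rcases h8 with ⟨a, b, c⟩ | ⟨a, b, c⟩
          · exact Or.inl ⟨a.1, mem_union_left _ b, fun x => c x b⟩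
          · exact Or.inr ⟨a.1, mem_union_left _ b, fun x => c x b⟩
        · rcases h5 with ⟨a, b⟩ | ⟨a, b⟩
          · exact Or.inl ⟨a, mem_union_left _ b⟩
          · exact Or.inr ⟨a, mem_union_left _ b⟩
    refine (card_le_card hsub).trans ((card_union_le _ _).trans (add_le_add hCB ?_))
    refine (card_biUnion_le_card_mul _ _ f fun e he => ?_).trans
      (Nat.mul_le_mul_right _ ((card_filter_le _ _).trans hCB))
    obtain ⟨h1, h2⟩ := mem_filter.1 he
    have h3 : out e ∉ X0 := by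
      have := (mem_filter.1 h1).2
      by_cases a : s e ∈ X0 <;> simp_all [out]
    refine hf W E s t D w _ (by simp [w0, h2.symm]) fun X x1 x2 => ?_
    have x0 : X0 ⊆ X := (subset_insert _ _).trans x1
    have x3 := hmin X (a0.trans x0) x2
    have x4 := h X0 a0 w0
    have x5 : cut s t D X ≠ cut s t D X0 := fun e' => by
      have := hm0 X ⟨a0.trans x0, x2, e'.trans c0⟩
      have := card_le_card x1
      rw [card_insert_of_notMem h3] at this
      omega
    omega

lemma thin_block [Fintype W] (s t : E → W) {D Z : Finset E} {M L : ℕ} (hZ : Z ⊆ D)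
    (hL : Z.card ≤ L) (hM : ∀ X : Finset W, X.Nonempty → X ≠ univ → M ≤ cut s t D X)
    (hz : ∀ X : Finset W, M * cut s t Z X ≤ cut s t D X) {w : W} {e : E} (he : e ∈ D)
    (hb : ∃ X : Finset W, w ∉ X ∧ ((s e = w ∧ t e ∈ X) ∨ (t e = w ∧ s e ∈ X)) ∧
      cut s t D X < M * (cut s t Z X + 1)) :
    ∃ a ∈ Z.image s ∪ Z.image t, a ≠ w ∧ e ∈ thinBad s t D w (M * (L + 1)) {a} := by
  classical
  obtain ⟨X, hX, hm⟩ := exists_min_image {X : Finset W | w ∉ X ∧
    ((s e = w ∧ t e ∈ X) ∨ (t e = w ∧ s e ∈ X)) ∧ cut s t D X < M * (cut s t Z X + 1)}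
    Finset.card (hb.imp fun X h => by simpa using h)
  simp only [mem_filter, mem_univ, true_and] at hX hm
  obtain ⟨h1, h2, h3⟩ := hX
  have h4 := hM X (by rcases h2 with h | h <;> exact ⟨_, h.2⟩) fun e => h1 (e ▸ mem_univ w)
  have h5 : 0 < cut s t Z X := by
    rcases Nat.eq_zero_or_pos (cut s t Z X) with h | h
    · rw [h] at h3; omega
    · exact h
  obtain ⟨z, hz'⟩ := card_pos.1 h5
  obtain ⟨z1, z2⟩ := mem_filter.1 hz'
  obtain ⟨a, a1, a2⟩ : ∃ a ∈ Z.image s ∪ Z.image t, a ∈ X := by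
    by_cases h : s z ∈ X
    · exact ⟨_, mem_union_left _ (mem_image_of_mem _ z1), h⟩
    · exact ⟨_, mem_union_right _ (mem_image_of_mem _ z1), by tauto⟩
  refine ⟨a, a1, fun e => h1 (e ▸ a2), ?_⟩
  simp only [thinBad, mem_filter]
  refine ⟨he, X, singleton_subset_iff.2 a2, h1, ?_, fun Y y1 y2 y3 => ?_, h2⟩
  · exact h3.le.trans (Nat.mul_le_mul_left _ (Nat.succ_le_succ ((card_filter_le _ _).trans hL)))
  · by_contra hn
    push Not at hn
    have n1 : ∀ e ∈ D, ¬ ((s e ∈ Y ∧ t e ∈ X ∧ t e ∉ Y) ∨ (t e ∈ Y ∧ s e ∈ X ∧ s e ∉ Y)) :=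
      fun e he => by have := hn e he; tauto
    have e1 := thin_add s t D y2 n1
    have e2 := thin_add s t Z y2 fun e he => n1 e (hZ he)
    have i1 := hz Y
    have i2 := hz (X \ Y)
    rw [e1, e2] at h3
    have c1 : Y.card < X.card := card_lt_card ⟨y2, fun h => y3 (y2.antisymm h)⟩
    have c2 : (X \ Y).card < X.card :=
      card_lt_card ⟨sdiff_subset, fun h => (mem_sdiff.1 (h a2)).2 (y1 (mem_singleton_self a))⟩
    by_cases hu : (s e = w ∧ t e ∈ Y) ∨ (t e = w ∧ s e ∈ Y)
    · have := hm Y ⟨fun h => h1 (y2 h), hu, by nlinarith⟩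
      omega
    · have := hm (X \ Y) ⟨fun h => h1 (mem_sdiff.1 h).1, by simp only [mem_sdiff]; tauto,
        by nlinarith⟩
      omega

end aux

/-- TASK Thin -/
theorem thin (M L : ℕ) : ∃ Δ : ℕ, ∀ (W E : Type) [Fintype W] [Fintype E] [DecidableEq W]
    [DecidableEq E] (s t : E → W) (D : Finset E) (Sp : Finset W) (j : W → ℕ), Simple s t →
    (∀ X : Finset W, X.Nonempty → X ≠ univ → M ≤ cut s t D X) →
    Sp.card ≤ L → ∑ v, j v ≤ L → (∀ v, 0 < j v → v ∈ Sp ∧ Δ ≤ deg s t D v) →
    ∃ (Z : Finset E) (o q : E → W), Z ⊆ D ∧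
      (∀ e ∈ Z, o e ∈ Sp ∧ q e ∉ Sp ∧ ((s e = o e ∧ t e = q e) ∨ (t e = o e ∧ s e = q e))) ∧
      (∀ v, #{e ∈ Z | o e = v} = j v) ∧ ∀ X : Finset W, M * cut s t Z X ≤ cut s t D X := by
  obtain ⟨f, hf⟩ := thin_S (M * (L + 1)) (M * (L + 1) + 1)
  refine ⟨2 * L * f + 2 * L + 1, fun W E _ _ _ _ s t D Sp j hs hM hSp hj hd => ?_⟩
  suffices H : ∀ n, n ≤ L → ∀ j : W → ℕ, ∑ v, j v = n →
      (∀ v, 0 < j v → v ∈ Sp ∧ 2 * L * f + 2 * L + 1 ≤ deg s t D v) →
      ∃ (Z : Finset E) (o q : E → W), Z.card = n ∧ Z ⊆ D ∧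
      (∀ e ∈ Z, o e ∈ Sp ∧ q e ∉ Sp ∧ ((s e = o e ∧ t e = q e) ∨ (t e = o e ∧ s e = q e))) ∧
      (∀ v, #{e ∈ Z | o e = v} = j v) ∧ ∀ X : Finset W, M * cut s t Z X ≤ cut s t D X by
    obtain ⟨Z, o, q, -, h⟩ := H _ hj j rfl hd
    exact ⟨Z, o, q, h⟩
  clear hj hd j
  intro n
  induction n with
  | zero =>
    intro _ j hj _
    refine ⟨∅, s, t, rfl, empty_subset _, by simp, fun v => ?_, fun X => by simp [cut]⟩
    rw [sum_eq_zero_iff.1 hj v (mem_univ v)]
    simp
  | succ n ih =>
    intro hn j hj hd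
    obtain ⟨w, -, hw⟩ : ∃ w ∈ (univ : Finset W), j w ≠ 0 :=
      exists_ne_zero_of_sum_ne_zero (by omega)
    obtain ⟨w1, w2⟩ := hd w (Nat.pos_of_ne_zero hw)
    obtain ⟨Z, o, q, zc, zD, z1, z2, z3⟩ := ih (by omega) (Function.update j w (j w - 1))
      (by
        rw [sum_update_of_mem (mem_univ w)]
        rw [← add_sum_erase _ _ (mem_univ w), ← sdiff_singleton_eq_erase] at hj
        omega)
      fun v hv => hd v (by
        by_cases h : v = w
        · subst h; omega
        · rwa [Function.update_of_ne h] at hv)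
    let oth : E → W := fun e => if s e = w then t e else s e
    have hoth : ∀ e, s e = w ∨ t e = w → (s e = w ∧ t e = oth e) ∨ (t e = w ∧ s e = oth e) := by
      intro e he
      by_cases h : s e = w <;> simp_all [oth]
    set Bl := ({a ∈ Z.image s ∪ Z.image t | a ≠ w}).biUnion
      fun a => thinBad s t D w (M * (L + 1)) {a} with hBl
    have c1 : Bl.card ≤ 2 * L * f := by
      refine (card_biUnion_le_card_mul _ _ f fun a ha => hf W E s t D w {a} ?_
        fun X _ _ => by omega).trans (Nat.mul_le_mul_right _ ?_)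
      · simpa using (mem_filter.1 ha).2.symm
      · have := card_filter_le (Z.image s ∪ Z.image t) (fun a => a ≠ w)
        have := card_union_le (Z.image s) (Z.image t)
        have := @card_image_le _ _ Z s _
        have := @card_image_le _ _ Z t _
        omega
    set T : Finset E := {e ∈ D | (s e = w ∨ t e = w) ∧ oth e ∈ Sp} with hT
    have c2 : T.card ≤ L := by
      refine le_trans (card_le_card_of_injOn oth (fun e he => (mem_filter.1 he).2.2)
        fun e he e' he' h => hs.2 e e' ?_) hSp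
      rcases hoth e (mem_filter.1 he).2.1 with ⟨a, b⟩ | ⟨a, b⟩ <;>
        rcases hoth e' (mem_filter.1 he').2.1 with ⟨c, d⟩ | ⟨c, d⟩ <;>
        rw [a, b, c, d, h] <;> simp [Sym2.eq_swap]
    obtain ⟨e, e1, e2⟩ : ∃ e ∈ ({e ∈ D | s e = w ∨ t e = w} : Finset E), e ∉ Bl ∪ Z ∪ T := by
      refine exists_mem_notMem_of_card_lt_card ?_
      have := card_union_le (Bl ∪ Z) T
      have := card_union_le Bl Z
      unfold deg at w2
      omega
    obtain ⟨eD, ew⟩ := mem_filter.1 e1
    simp only [mem_union, not_or] at e2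
    obtain ⟨⟨eB, eZ⟩, eT⟩ := e2
    have eS : oth e ∉ Sp := fun h => eT (mem_filter.2 ⟨eD, ew, h⟩)
    have hne : ∀ x ∈ Z, x ≠ e := fun x hx h => eZ (h ▸ hx)
    have nb : ∀ X : Finset W, w ∉ X → oth e ∈ X → M * (cut s t Z X + 1) ≤ cut s t D X := by
      intro X x1 x2
      by_contra hc
      obtain ⟨a, a1, a2, a3⟩ := thin_block s t zD (L := L) (by omega) hM z3 (w := w) eD
        ⟨X, x1, by rcases hoth e ew with ⟨a, b⟩ | ⟨a, b⟩ <;> simp [a, b, x2], not_le.1 hc⟩
      exact eB (mem_biUnion.2 ⟨a, mem_filter.2 ⟨a1, a2⟩, a3⟩)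
    refine ⟨insert e Z, Function.update o e w, Function.update q e (oth e),
      by rw [card_insert_of_notMem eZ, zc], insert_subset eD zD, fun x hx => ?_, fun v => ?_,
      fun X => ?_⟩
    · rcases mem_insert.1 hx with rfl | hx
      · simp only [Function.update_self]
        exact ⟨w1, eS, hoth x ew⟩
      · simp only [Function.update_of_ne (hne x hx)]
        exact z1 x hx
    · have h1 : ({x ∈ Z | Function.update o e w x = v} : Finset E) = {x ∈ Z | o x = v} :=
        filter_congr fun x hx => by rw [Function.update_of_ne (hne x hx)]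
      have h2 := z2 v
      rw [filter_insert, h1, Function.update_self]
      by_cases h : w = v
      · subst h
        rw [Function.update_self] at h2
        rw [if_pos rfl, card_insert_of_notMem fun h => eZ (mem_filter.1 h).1]
        omega
      · rw [Function.update_of_ne (Ne.symm h)] at h2
        rw [if_neg h, h2]
    · by_cases hx : s e ∈ X ↔ t e ∈ X
      · have : cut s t (insert e Z) X = cut s t Z X := by
          unfold cut
          rw [filter_insert, if_neg (not_not.2 hx)]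
        rw [this]
        exact z3 X
      · have : cut s t (insert e Z) X = cut s t Z X + 1 := by
          unfold cut
          rw [filter_insert, if_pos hx, card_insert_of_notMem fun h => eZ (mem_filter.1 h).1]
        rw [this]
        by_cases hw' : w ∈ X
        · rw [← thin_compl s t Z X, ← thin_compl s t D X]
          refine nb Xᶜ (by simpa using hw') (mem_compl.2 ?_)
          rcases hoth e ew with ⟨a, b⟩ | ⟨a, b⟩ <;> rw [a, b] at hx <;> tauto
        · refine nb X hw' ?_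
          rcases hoth e ew with ⟨a, b⟩ | ⟨a, b⟩ <;> rw [a, b] at hx <;> tauto

end Pool.Agent.P.MP_0ad50f_co
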