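import Pool.Agent.P.MP_0ad50f_co.CoreC
import Pool.Agent.P.MP_0ad50f_co.Label
import Pool.Agent.P.MP_0ad50f_co.Thin

/-! One highly edge-connected part with few precoloured edges and free pendant edges. -/

open Finset

namespace Pool.Agent.P.MP_0ad50f_co

lemma cut_part {W E : Type} [DecidableEq W] [DecidableEq E] (s t : E → W) (A B : Finset E)
    (h : B ⊆ A) (X : Finset W) : cut s t A X = cut s t (A \ B) X + cut s t B X := by
  rw [cut_split s t A (fun e => e ∉ B) X]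
  congr 2
  · ext e; simp
  · ext e
    simp only [mem_filter, not_not]
    exact ⟨fun h' => h'.2, fun h' => ⟨h h', h'⟩⟩

theorem core_or : ∃ δ₀ : ℕ, ∀ (W E F : Type) [Fintype W] [Fintype E] [Fintype F] [DecidableEq W]
    [DecidableEq E] [DecidableEq F] (s t : E → W) (own : F → W) (bk : W → ℕ) (bs : W → ℤ)
    (Forb : W → Finset ℤ) (dd : W → ℕ) (side par : W → Bool) (rank : W → ℕ)
    (DH DK DN : Finset E), Function.Injective rank →
    (∀ u v, 0 < bk u → bk v = 0 → rank u < rank v) →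
    (∀ e, (e ∈ DH ∧ e ∉ DK ∧ e ∉ DN ∧ side (s e) = false ∧ side (t e) = true) ∨
      (e ∉ DH ∧ e ∈ DK ∧ e ∉ DN ∧ side (s e) = side (t e) ∧ par (s e) = false ∧
        par (t e) = true) ∨
      (e ∉ DH ∧ e ∉ DK ∧ e ∈ DN ∧ side (s e) = side (t e) ∧ rank (t e) < rank (s e))) →
    (∀ X, 40 * cut s t DN X + 2 * cut s t DK X ≤ 21 * cut s t DH X ∧
      cut s t DN X ≤ cut s t DK X) →
    Nonempty W → Simple s t →
    (∀ X : Finset W, X.Nonempty → X ≠ univ → 24000 ≤ cut s t univ X) →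
    ∑ v, bk v ≤ 48000 → (∀ v, |bs v| ≤ 2 * bk v) → (∀ v, (Forb v).card ≤ bk v) →
    (∀ v, dd v = deg s t univ v + #{f | own f = v} + bk v) → (∀ v, δ₀ ≤ dd v) →
    ∃ (x : E → ℤ) (xf : F → ℤ) (σ : W → ℤ), (∀ e, -2 ≤ x e ∧ x e ≤ 2) ∧
      (∀ f, -2 ≤ xf f ∧ xf f ≤ 2) ∧
      (∀ v, σ v = 3 * dd v + bs v + dsum s t univ x v + ∑ f with own f = v, xf f) ∧
      (∀ v, σ v ∉ Forb v) ∧ (∀ e, σ (s e) ≠ σ (t e)) ∧
      ∀ v (a : ℤ), 2 * (deg s t {e | x e = a} v + #{f | own f = v ∧ xf f = a} + bk v) ≤ dd v := by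
  obtain ⟨Δ, hΔ⟩ := thin 100 48000
  refine ⟨12 * Δ + 1000000000, ?_⟩
  intro W E F _ _ _ _ _ _ s t own bk bs Forb dd side par rank DH DK DN hr hsp hor hlab hne hsim
    hconn hbk hbs hF hdd hδ
  have hl := hsim.1
  obtain ⟨w₀, -, hw⟩ := Finset.exists_max_image univ dd univ_nonempty
  have hcut3 : ∀ X, cut s t univ X = cut s t DH X + cut s t DK X + cut s t DN X := by
    intro X
    have e1 : ((univ : Finset E) \ DH) \ DK = DN := by
      ext e
      rcases hor e with ⟨a1, a2, a3, -⟩ | ⟨a1, a2, a3, -⟩ | ⟨a1, a2, a3, -⟩ <;> simp [a1, a2, a3]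
    have e2 : DK ⊆ univ \ DH := by
      intro e he
      rcases hor e with ⟨a1, a2, a3, -⟩ | ⟨a1, a2, a3, -⟩ | ⟨a1, a2, a3, -⟩ <;> simp_all
    rw [cut_part s t univ DH (subset_univ _) X, cut_part s t _ DK e2 X, e1]
    ring
  have hH : ∀ e ∈ DH, side (s e) = false ∧ side (t e) = true := fun e he => by
    rcases hor e with h | h | h
    · exact h.2.2.2
    · exact absurd he h.1
    · exact absurd he h.1
  have hc1 : ∀ (D : Finset E) v, cut s t D {v} = deg s t D v :=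
    fun D v => cut_singleton s t D (fun e _ => hl e) v
  have hbk1 : ∀ v, bk v ≤ 48000 := fun v =>
    (Finset.single_le_sum (f := bk) (fun _ _ => Nat.zero_le _) (mem_univ v)).trans hbk
  obtain ⟨j, hj⟩ : ∃ j : W → ℕ, ∀ v, j v = if #{f | own f = v} < bk v then bk v else 0 :=
    ⟨_, fun _ => rfl⟩
  have hjs : ∑ v, j v ≤ 48000 :=
    (Finset.sum_le_sum fun v _ => by rw [hj]; split_ifs <;> omega).trans hbk
  obtain ⟨Z, oZ, qZ, hZ1, hZ2, hZ3, hZ4⟩ := hΔ W E s t DH {v | 0 < bk v} j hsim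
    (fun X h1 h2 => by
      have := hconn X h1 h2
      have := hcut3 X
      have := hlab X
      omega)
    (by
      refine le_trans ?_ hbk
      rw [Finset.card_filter]
      exact Finset.sum_le_sum fun v _ => by split_ifs <;> omega)
    hjs
    (fun v hv => by
      rw [hj] at hv
      have h1 := hcut3 {v}
      have h2 := hlab {v}
      have h3 := hdd v
      have h4 := hδ v
      have h5 := hbk1 v
      simp only [hc1] at h1 h2
      refine ⟨mem_filter.2 ⟨mem_univ _, ?_⟩, ?_⟩ <;> split_ifs at hv <;> omega)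
  obtain ⟨ZF, hZF⟩ := pick own (fun v => bk v - j v) (fun v => by
    rw [hj]; split_ifs <;> omega)
  have hZcard : Z.card ≤ 48000 := by
    rw [Finset.card_eq_sum_card_fiberwise (f := oZ) (t := univ) (fun _ _ => mem_univ _)]
    simpa only [hZ3] using hjs
  have hcH : ∀ X, cut s t DH X = cut s t (DH \ Z) X + cut s t Z X := cut_part s t DH Z hZ1
  have hsubN : ∀ (D : Finset E) v, v ≠ w₀ →
      deg s t D v ≤ deg s t {e ∈ D | ¬ (s e = w₀ ∨ t e = w₀)} v + 1 := by
    intro D v hv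
    have h1 := deg_split s t D (fun e => s e = w₀ ∨ t e = w₀) v
    have h2 := deg_at_le_one s t hsim {e ∈ D | s e = w₀ ∨ t e = w₀} w₀ v hv
      (fun e he => (mem_filter.1 he).2)
    omega
  have hsub : ∀ (D : Finset E) v, deg s t {e ∈ D | ¬ (s e = w₀ ∨ t e = w₀)} v ≤ deg s t D v :=
    fun D v => deg_mono s t (Finset.filter_subset _ _) v
  refine core_mid s t own bk bs Forb dd hsim side par rank hr (DH \ Z) Z
    {e ∈ DN | ¬ (s e = w₀ ∨ t e = w₀)} {e ∈ DK | ¬ (s e = w₀ ∨ t e = w₀)}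
    {e | e ∉ DH ∧ (s e = w₀ ∨ t e = w₀)} ZF oZ qZ w₀ (fun v => hw v (mem_univ v))
    (fun e => ?_) (fun e he => ?_) (fun e he => ?_) (fun e he => ?_) (fun e he => ?_)
    (fun e he => ?_) (fun e he => (mem_filter.1 he).2.2) (fun X h1 h2 => ?_) (fun X => ?_)
    (fun v => ?_) hbk1 (fun v => (deg_le_card s t Z v).trans hZcard) (fun v hv => ?_)
    (fun v => ?_) (fun v => ?_) hbs hF hdd (fun v => by have := hδ v; omega)
  · simp only [mem_sdiff, mem_filter, mem_univ, true_and]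
    generalize (s e = w₀ ∨ t e = w₀) = P
    have h2 : e ∉ DH → e ∉ Z := fun h h' => h (hZ1 h')
    rcases hor e with ⟨a1, a2, a3, -⟩ | ⟨a1, a2, a3, -⟩ | ⟨a1, a2, a3, -⟩
    · by_cases b : e ∈ Z <;> simp [a1, a2, a3, b]
    · by_cases b : P <;> simp [a1, a2, a3, b, h2 a1]
    · by_cases b : P <;> simp [a1, a2, a3, b, h2 a1]
  · exact hH e (mem_sdiff.1 he).1
  · exact hH e (hZ1 he)
  · obtain ⟨h1, h2, h3⟩ := hZ2 e he
    simp only [mem_filter, mem_univ, true_and] at h1 h2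
    exact ⟨hsp _ _ h1 (by omega), h3⟩
  · obtain ⟨h2, h3⟩ := mem_filter.1 he
    rw [not_or] at h3
    rcases hor e with h | h | h
    · exact absurd h2 h.2.2.1
    · exact absurd h2 h.2.2.1
    · exact ⟨h.2.2.2.1, h.2.2.2.2, h3⟩
  · obtain ⟨h2, h3⟩ := mem_filter.1 he
    rw [not_or] at h3
    rcases hor e with h | h | h
    · exact absurd h2 h.2.1
    · exact ⟨h.2.2.2.1, h.2.2.2.2.1, h.2.2.2.2.2, h3⟩
    · exact absurd h2 h.2.1
  · have := hconn X h1 h2
    have := hcut3 X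
    have := hlab X
    have := hcH X
    have := hZ4 X
    omega
  · have := hlab X
    have := hcH X
    have := hZ4 X
    have := cut_mono s t (Finset.filter_subset (fun e => ¬ (s e = w₀ ∨ t e = w₀)) DN) X
    omega
  · rw [hZ3, hZF, hj]
    split_ifs <;> omega
  · have h1 := hlab {v}
    simp only [hc1] at h1
    have := hsubN DK v hv
    have := hsub DN v
    omega
  · have h1 := hlab {v}
    have h2 := hcH {v}
    simp only [hc1] at h1 h2
    have := hsub DN v
    omega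
  · have h1 := hlab {v}
    have h2 := hcH {v}
    simp only [hc1] at h1 h2
    have := hsub DN v
    have := hsub DK v
    omega

section flip

variable {W E : Type} [DecidableEq W] (s t s' t' : E → W)
  (h : ∀ e, (s' e = s e ∧ t' e = t e) ∨ (s' e = t e ∧ t' e = s e))

include h

lemma dsum_flip (D : Finset E) (f : E → ℤ) (v : W) : dsum s' t' D f v = dsum s t D f v := by
  unfold dsum
  refine Finset.sum_congr rfl fun e _ => ?_
  rcases h e with ⟨h1, h2⟩ | ⟨h1, h2⟩ <;> simp only [h1, h2, or_comm]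

lemma deg_flip (D : Finset E) (v : W) : deg s' t' D v = deg s t D v := by
  have := dsum_flip s t s' t' h D (fun _ => 1) v
  simp only [← deg_eq_dsum] at this
  exact_mod_cast this

lemma cut_flip (D : Finset E) (X : Finset W) : cut s' t' D X = cut s t D X := by
  unfold cut
  refine congrArg _ (Finset.filter_congr fun e _ => ?_)
  rcases h e with ⟨h1, h2⟩ | ⟨h1, h2⟩ <;> rw [h1, h2]
  tauto

omit [DecidableEq W] in
lemma simple_flip (hs : Simple s t) : Simple s' t' := by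
  have k : ∀ e, s(s' e, t' e) = s(s e, t e) := fun e => by
    rcases h e with ⟨h1, h2⟩ | ⟨h1, h2⟩ <;> rw [h1, h2]
    exact Sym2.eq_swap
  refine ⟨fun e => ?_, fun e e' he => hs.2 e e' (by rw [← k, ← k, he])⟩
  have := hs.1 e
  rcases h e with ⟨h1, h2⟩ | ⟨h1, h2⟩ <;> rw [h1, h2]
  · exact this
  · exact this.symm

end flip

lemma exists_rank {W : Type} [Fintype W] (bk : W → ℕ) : ∃ rank : W → ℕ,
    Function.Injective rank ∧ ∀ u v, 0 < bk u → bk v = 0 → rank u < rank v := by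
  refine ⟨fun v => (Fintype.equivFin W v : ℕ) + if bk v = 0 then Fintype.card W else 0,
    fun u v h => ?_, fun u v hu hv => ?_⟩
  · have h1 := (Fintype.equivFin W u).2
    have h2 := (Fintype.equivFin W v).2
    beta_reduce at h
    apply (Fintype.equivFin W).injective
    rw [Fin.ext_iff]
    split_ifs at h <;> omega
  · have h1 := (Fintype.equivFin W u).2
    beta_reduce
    rw [if_pos hv, if_neg (by omega)]
    omega

theorem core : ∃ δ₀ : ℕ, ∀ (W E F : Type) [Fintype W] [Fintype E] [Fintype F] [DecidableEq W]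
    [DecidableEq E] [DecidableEq F] (s t : E → W) (own : F → W) (bk : W → ℕ) (bs : W → ℤ)
    (Forb : W → Finset ℤ) (dd : W → ℕ), Nonempty W → Simple s t →
    (∀ X : Finset W, X.Nonempty → X ≠ univ → 24000 ≤ cut s t univ X) →
    ∑ v, bk v ≤ 48000 → (∀ v, |bs v| ≤ 2 * bk v) → (∀ v, (Forb v).card ≤ bk v) →
    (∀ v, dd v = deg s t univ v + #{f | own f = v} + bk v) → (∀ v, δ₀ ≤ dd v) →
    ∃ (x : E → ℤ) (xf : F → ℤ) (σ : W → ℤ), (∀ e, -2 ≤ x e ∧ x e ≤ 2) ∧
      (∀ f, -2 ≤ xf f ∧ xf f ≤ 2) ∧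
      (∀ v, σ v = 3 * dd v + bs v + dsum s t univ x v + ∑ f with own f = v, xf f) ∧
      (∀ v, σ v ∉ Forb v) ∧ (∀ e, σ (s e) ≠ σ (t e)) ∧
      ∀ v (a : ℤ), 2 * (deg s t {e | x e = a} v + #{f | own f = v ∧ xf f = a} + bk v) ≤ dd v := by
  obtain ⟨δ₀, hc⟩ := core_or
  refine ⟨δ₀, ?_⟩
  intro W E F _ _ _ _ _ _ s t own bk bs Forb dd hne hsim hconn hbk hbs hF hdd hδ
  obtain ⟨side, par, hlab⟩ := label s t
  obtain ⟨rank, hr, hsp⟩ := exists_rank bk
  have key : ∀ e, ∃ p : W × W, ((p.1 = s e ∧ p.2 = t e) ∨ (p.1 = t e ∧ p.2 = s e)) ∧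
      ((side (s e) ≠ side (t e) ∧ side p.1 = false ∧ side p.2 = true) ∨
        (side (s e) = side (t e) ∧ par (s e) ≠ par (t e) ∧ side p.1 = side p.2 ∧
          par p.1 = false ∧ par p.2 = true) ∨
        (side (s e) = side (t e) ∧ par (s e) = par (t e) ∧ side p.1 = side p.2 ∧
          rank p.2 < rank p.1)) := by
    intro e
    by_cases h1 : side (s e) = side (t e)
    · by_cases h2 : par (s e) = par (t e)
      · rcases lt_or_gt_of_ne (fun h => hsim.1 e (hr h)) with h3 | h3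
        · exact ⟨(t e, s e), Or.inr ⟨rfl, rfl⟩, Or.inr (Or.inr ⟨h1, h2, h1.symm, h3⟩)⟩
        · exact ⟨(s e, t e), Or.inl ⟨rfl, rfl⟩, Or.inr (Or.inr ⟨h1, h2, h1, h3⟩)⟩
      · cases h3 : par (s e)
        · exact ⟨(s e, t e), Or.inl ⟨rfl, rfl⟩, Or.inr (Or.inl ⟨h1, by simpa [h3] using h2, h1,
            h3, by simpa [h3] using h2⟩)⟩
        · exact ⟨(t e, s e), Or.inr ⟨rfl, rfl⟩, Or.inr (Or.inl ⟨h1, by simpa [h3] using h2,
            h1.symm, by simpa [h3] using h2, h3⟩)⟩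
    · cases h3 : side (s e)
      · exact ⟨(s e, t e), Or.inl ⟨rfl, rfl⟩, Or.inl ⟨by simpa [h3] using h1, h3,
          by simpa [h3] using h1⟩⟩
      · exact ⟨(t e, s e), Or.inr ⟨rfl, rfl⟩, Or.inl ⟨by simpa [h3] using h1,
          by simpa [h3] using h1, h3⟩⟩
  choose p hp1 hp2 using key
  have hf : ∀ e, ((p e).1 = s e ∧ (p e).2 = t e) ∨ ((p e).1 = t e ∧ (p e).2 = s e) := hp1
  obtain ⟨x, xf, σ, h1, h2, h3, h4, h5, h6⟩ := hc W E F (fun e => (p e).1) (fun e => (p e).2) own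
    bk bs Forb dd side par rank {e | side (s e) ≠ side (t e)}
    {e | side (s e) = side (t e) ∧ par (s e) ≠ par (t e)}
    {e | side (s e) = side (t e) ∧ par (s e) = par (t e)} hr hsp
    (fun e => by
      simp only [mem_filter, mem_univ, true_and]
      rcases hp2 e with ⟨a, b⟩ | ⟨a, b, c⟩ | ⟨a, b, c⟩
      · exact Or.inl ⟨a, fun h => a h.1, fun h => a h.1, b⟩
      · exact Or.inr (Or.inl ⟨fun h => h a, ⟨a, b⟩, fun h => b h.2, c⟩)
      · exact Or.inr (Or.inr ⟨fun h => h a, fun h => h.2 b, ⟨a, b⟩, c⟩))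
    (fun X => by simp only [cut_flip s t _ _ hf]; exact hlab X) hne (simple_flip s t _ _ hf hsim)
    (fun X a b => by rw [cut_flip s t _ _ hf]; exact hconn X a b) hbk hbs hF
    (fun v => by rw [deg_flip s t _ _ hf]; exact hdd v) hδ
  refine ⟨x, xf, σ, h1, h2, fun v => ?_, h4, fun e => ?_, fun v a => ?_⟩
  · rw [h3, dsum_flip s t _ _ hf]
  · have := h5 e
    rcases hf e with ⟨a, b⟩ | ⟨a, b⟩ <;> rw [a, b] at this
    · exact this
    · exact this.symm
  · have := h6 v a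
    rwa [deg_flip s t _ _ hf] at this

end Pool.Agent.P.MP_0ad50f_co
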