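import Pool.Agent.P.MP_0ad50f_co.Basic

/-! Greedy choice of signs, equitable partitions. -/

open Finset

namespace Pool.Agent.P.MP_0ad50f_co

/-- The sum of signs with a prescribed set of plus signs. -/
theorem greedy_sum {C : Type} [DecidableEq C] {S T : Finset C} (h : T ⊆ S) :
    ∑ c ∈ S, (if c ∈ T then (1 : ℤ) else -1) = 2 * (#T : ℤ) - #S := by
  have e : ∀ c, (if c ∈ T then (1 : ℤ) else -1) = 2 * (if c ∈ T then (1 : ℤ) else 0) - 1 :=
    fun c => by split_ifs <;> norm_num
  simp only [e]
  rw [sum_sub_distrib, ← mul_sum, sum_boole, filter_mem_eq_inter, inter_eq_right.2 h]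
  simp

/-- One more option than forbidden values. -/
theorem greedy_opt {C : Type} [DecidableEq C] (S : Finset C) (b : ℤ) (F : Finset ℤ)
    (hF : #F ≤ #S) :
    ∃ T ⊆ S, b + 2 * ∑ c ∈ S, (if c ∈ T then (1 : ℤ) else -1) ∉ F := by
  have hinj : Function.Injective fun j : ℕ => b + 2 * (2 * (j : ℤ) - #S) := by
    intro i j hij
    simp only at hij
    omega
  have h1 : #F < #((range (#S + 1)).image fun j : ℕ => b + 2 * (2 * (j : ℤ) - #S)) := by
    rw [card_image_of_injective _ hinj, card_range]
    omega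
  obtain ⟨x, hx, hxF⟩ := exists_mem_notMem_of_card_lt_card h1
  obtain ⟨j, hj, rfl⟩ := mem_image.1 hx
  obtain ⟨T, hT, rfl⟩ := exists_subset_card_eq (s := S) (Nat.lt_succ_iff.1 (mem_range.1 hj))
  exact ⟨T, hT, by rwa [greedy_sum hT]⟩

/-- TASK Greedy (1) -/
theorem greedy {W C : Type} [Fintype W] [Fintype C] [DecidableEq W] (rank : W → ℕ)
    (hr : Function.Injective rank) (o q : C → Option W)
    (hoq : ∀ c v, q c = some v → ∃ u, o c = some u ∧ rank u < rank v)
    (base : W → ℤ) (L : W → Finset W) (hL : ∀ v, ∀ u ∈ L v, rank u < rank v)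
    (Forb : W → Finset ℤ) (hcard : ∀ v, (L v).card + (Forb v).card ≤ #{c | o c = some v}) :
    ∃ (z : C → ℤ) (σ : W → ℤ), (∀ c, z c = 1 ∨ z c = -1) ∧
      (∀ v, σ v = base v + 2 * ∑ c with o c = some v, z c + 2 * ∑ c with q c = some v, z c) ∧
      (∀ v, σ v ∉ Forb v) ∧ ∀ v, ∀ u ∈ L v, σ v ≠ σ u := by
  classical
  obtain ⟨sg, hsg⟩ : ∃ sg : (C → ℤ) → W → ℤ, ∀ z v,
      sg z v = base v + 2 * ∑ c with o c = some v, z c + 2 * ∑ c with q c = some v, z c :=
    ⟨_, fun _ _ => rfl⟩
  have key : ∀ n : ℕ, ∃ z : C → ℤ, (∀ c, z c = 1 ∨ z c = -1) ∧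
      ∀ v, rank v < n → sg z v ∉ Forb v ∧ ∀ u ∈ L v, sg z v ≠ sg z u := by
    intro n
    induction n with
    | zero => exact ⟨fun _ => 1, fun _ => Or.inl rfl, fun v hv => absurd hv (Nat.not_lt_zero _)⟩
    | succ n ih =>
      obtain ⟨z, hz, h⟩ := ih
      by_cases hv : ∃ v, rank v = n
      swap
      · refine ⟨z, hz, fun v hv' => h v ?_⟩
        have : rank v ≠ n := fun e => hv ⟨v, e⟩
        omega
      obtain ⟨v, rfl⟩ := hv
      obtain ⟨T, -, hT⟩ := greedy_opt (univ.filter fun c => o c = some v)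
        (base v + 2 * ∑ c with q c = some v, z c) (Forb v ∪ (L v).image (sg z))
        ((card_union_le _ _).trans (le_trans (by have := card_image_le (s := L v) (f := sg z); omega)
          (hcard v)))
      obtain ⟨z', hz'⟩ : ∃ z' : C → ℤ, ∀ c,
          z' c = if o c = some v then (if c ∈ T then 1 else -1) else z c := ⟨_, fun _ => rfl⟩
      have hq : ∀ u, rank u ≤ rank v →
          ∑ c with q c = some u, z' c = ∑ c with q c = some u, z c := by
        intro u hu
        refine sum_congr rfl fun c hc => ?_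
        obtain ⟨w, hw, hlt⟩ := hoq c u (mem_filter.1 hc).2
        rw [hz', if_neg]
        intro e
        rw [hw] at e
        obtain rfl := Option.some.inj e
        omega
      have hlow : ∀ u, rank u < rank v → sg z' u = sg z u := by
        intro u hu
        rw [hsg, hsg, hq u hu.le]
        congr 2
        congr 1
        refine sum_congr rfl fun c hc => ?_
        rw [hz', if_neg]
        intro e
        rw [(mem_filter.1 hc).2] at e
        obtain rfl := Option.some.inj e
        omega
      have hv : sg z' v = base v + 2 * ∑ c with q c = some v, z c +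
          2 * ∑ c with o c = some v, (if c ∈ T then (1 : ℤ) else -1) := by
        rw [hsg, hq v le_rfl, add_right_comm]
        congr 2
        exact sum_congr rfl fun c hc => by rw [hz', if_pos (mem_filter.1 hc).2]
      refine ⟨z', fun c => ?_, fun u hu => ?_⟩
      · rw [hz']
        split_ifs
        · exact Or.inl rfl
        · exact Or.inr rfl
        · exact hz c
      · rcases Nat.lt_succ_iff_lt_or_eq.1 hu with hu | hu
        · rw [hlow u hu]
          refine ⟨(h u hu).1, fun w hw => ?_⟩
          rw [hlow w ((hL u w hw).trans hu)]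
          exact (h u hu).2 w hw
        · obtain rfl := hr hu
          rw [← hv, mem_union, not_or] at hT
          refine ⟨hT.1, fun w hw e => hT.2 ?_⟩
          rw [e, hlow w (hL u w hw)]
          exact mem_image_of_mem _ hw
  obtain ⟨z, hz, h⟩ := key (univ.sup rank + 1)
  have hlt : ∀ v, rank v < univ.sup rank + 1 := fun v =>
    Nat.lt_succ_of_le (le_sup (mem_univ v))
  exact ⟨z, sg z, hz, hsg z, fun v => (h v (hlt v)).1, fun v => (h v (hlt v)).2⟩

theorem greedy_three {A : Type} (S : Finset A) (κ : A → Fin 3) :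
    #S = #{a ∈ S | κ a = 0} + #{a ∈ S | κ a = 1} + #{a ∈ S | κ a = 2} := by
  rw [card_eq_sum_card_fiberwise (f := κ) (t := univ) fun _ _ => mem_univ _, Fin.sum_univ_three]

theorem greedy_equi {W A : Type} [DecidableEq W] (D : Finset A) (o : A → W) :
    ∃ κ : A → Fin 3, ∀ v i j,
      #{a ∈ D | o a = v ∧ κ a = i} ≤ #{a ∈ D | o a = v ∧ κ a = j} + 1 := by
  classical
  induction D using Finset.induction_on with
  | empty => exact ⟨fun _ => 0, fun _ _ _ => by simp⟩
  | insert a D ha ih =>
    obtain ⟨κ, h⟩ := ih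
    obtain ⟨i₀, -, hi₀⟩ := exists_min_image (univ : Finset (Fin 3))
      (fun i => #{b ∈ D | o b = o a ∧ κ b = i}) univ_nonempty
    have hc : ∀ v i, #{b ∈ insert a D | o b = v ∧ Function.update κ a i₀ b = i} =
        #{b ∈ D | o b = v ∧ κ b = i} + if o a = v ∧ i₀ = i then 1 else 0 := by
      intro v i
      have e : {b ∈ D | o b = v ∧ Function.update κ a i₀ b = i} = {b ∈ D | o b = v ∧ κ b = i} :=
        filter_congr fun b hb => by rw [Function.update_of_ne (ne_of_mem_of_not_mem hb ha)]
      rw [filter_insert, e, Function.update_self]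
      split_ifs
      · exact card_insert_of_notMem fun hm => ha (mem_filter.1 hm).1
      · rfl
    refine ⟨Function.update κ a i₀, fun v i j => ?_⟩
    rw [hc, hc]
    by_cases h1 : o a = v ∧ i₀ = i
    · obtain ⟨rfl, rfl⟩ := h1
      have := hi₀ j (mem_univ _)
      split_ifs <;> omega
    · have := h v i j
      rw [if_neg h1]
      omega

/-- TASK Greedy (2) -/
theorem equi {W A : Type} [DecidableEq W] (D : Finset A) (o : A → W) :
    ∃ κ : A → Fin 3, ∀ v i,
      3 * #{a ∈ D | o a = v ∧ κ a = i} ≤ #{a ∈ D | o a = v} + 2 ∧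
      #{a ∈ D | o a = v} ≤ 3 * #{a ∈ D | o a = v ∧ κ a = i} + 2 := by
  obtain ⟨κ, h⟩ := greedy_equi D o
  refine ⟨κ, fun v i => ?_⟩
  have e := greedy_three (D.filter fun a => o a = v) κ
  simp only [filter_filter] at e
  have a0 := h v i 0
  have a1 := h v i 1
  have a2 := h v i 2
  have b0 := h v 0 i
  have b1 := h v 1 i
  have b2 := h v 2 i
  have hi : i = 0 ∨ i = 1 ∨ i = 2 := by
    fin_cases i <;> simp
  rcases hi with rfl | rfl | rfl <;> omega

/-- TASK Greedy (3) -/
theorem pick {W A : Type} [Fintype A] [DecidableEq W] (o : A → W) (j : W → ℕ)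
    (hj : ∀ v, j v ≤ #{a | o a = v}) :
    ∃ Z : Finset A, ∀ v, #{a ∈ Z | o a = v} = j v := by
  classical
  choose T hT hc using fun v => exists_subset_card_eq (hj v)
  refine ⟨univ.filter fun a => a ∈ T (o a), fun v => ?_⟩
  rw [← hc v]
  congr 1
  ext a
  simp only [mem_filter, mem_univ, true_and]
  constructor
  · rintro ⟨h, rfl⟩
    exact h
  · intro h
    obtain rfl := (mem_filter.1 (hT v h)).2
    exact ⟨h, rfl⟩

end Pool.Agent.P.MP_0ad50f_co
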