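import Pool.Agent.P.MP_0ad50f_co.Round
import Pool.Agent.P.MP_0ad50f_co.Greedy

/-! Small tools for the colouring of one part. -/

open Finset

namespace Pool.Agent.P.MP_0ad50f_co

variable {W E : Type} [DecidableEq W]

lemma deg_filter (s t : E → W) (D : Finset E) (p : E → Prop) [DecidablePred p] (v : W) :
    (deg s t (D.filter p) v : ℤ) = dsum s t D (fun e => if p e then 1 else 0) v := by
  rw [deg_eq_dsum]
  unfold dsum
  rw [Finset.sum_filter]
  refine Finset.sum_congr rfl fun e _ => ?_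
  by_cases h1 : p e <;> simp [h1]

lemma sum_part5 [Fintype E] [DecidableEq E] {R : Type} [AddCommMonoid R]
    (D1 D2 D3 D4 D5 : Finset E)
    (h : ∀ e, (e ∈ D1 ∧ e ∉ D2 ∧ e ∉ D3 ∧ e ∉ D4 ∧ e ∉ D5) ∨
      (e ∉ D1 ∧ e ∈ D2 ∧ e ∉ D3 ∧ e ∉ D4 ∧ e ∉ D5) ∨
      (e ∉ D1 ∧ e ∉ D2 ∧ e ∈ D3 ∧ e ∉ D4 ∧ e ∉ D5) ∨
      (e ∉ D1 ∧ e ∉ D2 ∧ e ∉ D3 ∧ e ∈ D4 ∧ e ∉ D5) ∨
      (e ∉ D1 ∧ e ∉ D2 ∧ e ∉ D3 ∧ e ∉ D4 ∧ e ∈ D5)) (g : E → R) :
    ∑ e, g e = ∑ e ∈ D1, g e + ∑ e ∈ D2, g e + ∑ e ∈ D3, g e + ∑ e ∈ D4, g e + ∑ e ∈ D5, g e := by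
  have key : ∀ D : Finset E, ∑ e ∈ D, g e = ∑ e, if e ∈ D then g e else 0 := by
    intro D
    rw [Finset.sum_ite_mem, univ_inter]
  rw [key D1, key D2, key D3, key D4, key D5]
  simp only [← Finset.sum_add_distrib]
  refine Finset.sum_congr rfl fun e _ => ?_
  rcases h e with h | h | h | h | h <;> simp [h]

lemma dsum_ends (s t : E → W) (D : Finset E) (hl : ∀ e, s e ≠ t e) (f : E → ℤ) (v : W) :
    dsum s t D f v = ∑ e ∈ D with s e = v, f e + ∑ e ∈ D with t e = v, f e := by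
  unfold dsum
  rw [Finset.sum_filter, Finset.sum_filter, ← Finset.sum_add_distrib]
  refine Finset.sum_congr rfl fun e _ => ?_
  have := hl e
  by_cases h1 : s e = v <;> by_cases h2 : t e = v <;> simp_all

lemma sum_deg [Fintype W] (s t : E → W) (D : Finset E) (hl : ∀ e, s e ≠ t e) :
    ∑ v, (deg s t D v : ℤ) = 2 * D.card := by
  simp only [deg_eq_dsum, dsum_ends s t D hl, Finset.sum_add_distrib]
  rw [Finset.sum_fiberwise (s := D) (g := s) (f := fun _ => (1 : ℤ)),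
    Finset.sum_fiberwise (s := D) (g := t) (f := fun _ => (1 : ℤ))]
  simp; ring

lemma sum_sign_mod {A : Type} (D : Finset A) (z : A → ℤ) (hz : ∀ a, z a = 1 ∨ z a = -1) :
    ∑ a ∈ D, z a ≡ D.card [ZMOD 2] := by
  classical
  induction D using Finset.induction_on with
  | empty => simp
  | insert a D ha ih =>
    rw [Finset.sum_insert ha, Finset.card_insert_of_notMem ha]
    push_cast
    rcases hz a with h | h <;> rw [h] <;> unfold Int.ModEq at * <;> omega

lemma abs_sum_sign {A : Type} (D : Finset A) (z : A → ℤ) (hz : ∀ a, z a = 1 ∨ z a = -1) :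
    |∑ a ∈ D, z a| ≤ D.card := by
  refine (Finset.abs_sum_le_sum_abs _ _).trans ?_
  have : ∀ a ∈ D, |z a| ≤ 1 := fun a _ => by rcases hz a with h | h <;> simp [h]
  simpa using Finset.sum_le_sum this

lemma kvals [Fintype W] [Fintype E] [DecidableEq E] (s t : E → W) (D : Finset E)
    (hbip : ∀ e ∈ D, ∀ e' ∈ D, s e ≠ t e') :
    ∃ x : E → ℤ, (∀ e ∈ D, x e = 2 ∨ x e = -2) ∧ (∀ v, |dsum s t D x v| ≤ 2) ∧
      ∀ v a, 2 * deg s t (D.filter fun e => x e = a) v ≤ deg s t D v + 1 := by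
  obtain ⟨z, hz, hv, -⟩ := round s t D hbip (fun _ => ()) (fun _ => (1 / 2 : ℝ))
  have hz' : ∀ e ∈ D, z e = 0 ∨ z e = 1 := by
    intro e he
    have := hz e he
    have h1 : ⌊(1 / 2 : ℝ)⌋ = 0 := by norm_num [Int.floor_eq_iff]
    have h2 : ⌈(1 / 2 : ℝ)⌉ = 1 := by norm_num [Int.ceil_eq_iff]
    omega
  have hb : ∀ v, (deg s t D v : ℤ) - 1 ≤ 2 * dsum s t D z v ∧
      2 * dsum s t D z v ≤ (deg s t D v : ℤ) + 1 := by
    intro v
    have := hv v
    rw [dsum_const] at this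
    have h1 : ((deg s t D v : ℝ)) * (1 / 2) - 1 < ⌊((deg s t D v : ℝ)) * (1 / 2)⌋ :=
      Int.sub_one_lt_floor _
    have h2 : (⌈((deg s t D v : ℝ)) * (1 / 2)⌉ : ℝ) < ((deg s t D v : ℝ)) * (1 / 2) + 1 :=
      Int.ceil_lt_add_one _
    have h3 : ((⌊((deg s t D v : ℝ)) * (1 / 2)⌋ : ℤ) : ℝ) ≤ ((dsum s t D z v : ℤ) : ℝ) := by
      exact_mod_cast this.1
    have h4 : ((dsum s t D z v : ℤ) : ℝ) ≤ ((⌈((deg s t D v : ℝ)) * (1 / 2)⌉ : ℤ) : ℝ) := by
      exact_mod_cast this.2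
    have h5 : ((deg s t D v : ℤ) : ℝ) - 2 < 2 * ((dsum s t D z v : ℤ) : ℝ) := by
      push_cast at *; linarith
    have h6 : 2 * ((dsum s t D z v : ℤ) : ℝ) < ((deg s t D v : ℤ) : ℝ) + 2 := by
      push_cast at *; linarith
    have h7 : (deg s t D v : ℤ) - 2 < 2 * dsum s t D z v := by exact_mod_cast h5
    have h8 : 2 * dsum s t D z v < (deg s t D v : ℤ) + 2 := by exact_mod_cast h6
    omega
  refine ⟨fun e => 4 * z e + -2, fun e he => ?_, fun v => ?_, fun v a => ?_⟩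
  · rcases hz' e he with h | h <;> simp [h]
  · rw [dsum_add, dsum_mul, dsum_const]
    have := hb v
    rw [abs_le]
    omega
  · have h1 := deg_filter s t D (fun e => 4 * z e + -2 = a) v
    beta_reduce
    have := hb v
    by_cases ha : a = 2
    · have : dsum s t D (fun e => if 4 * z e + -2 = a then (1 : ℤ) else 0) v = dsum s t D z v :=
        dsum_congr _ _ _ _ _ (fun e he => by rcases hz' e he with h | h <;> simp [h, ha]) v
      omega
    · have h2 : dsum s t D (fun e => (if 4 * z e + -2 = a then (1 : ℤ) else 0) + z e) v ≤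
          dsum s t D (fun _ => 1) v := by
        unfold dsum
        refine Finset.sum_le_sum fun e he => ?_
        rcases hz' e he with h | h
        · simp only [h]; split_ifs <;> simp
        · have : ¬ (4 * (1 : ℤ) + -2 = a) := by omega
          simp only [h, this]; split_ifs <;> simp_all
      rw [dsum_add, ← deg_eq_dsum] at h2
      omega

lemma equi' {A : Type} (D : Finset A) (o : A → W) :
    ∃ κ : A → ℤ, (∀ a, 0 ≤ κ a ∧ κ a ≤ 2) ∧
      (∀ v, |∑ a ∈ D with o a = v, κ a - #{a ∈ D | o a = v}| ≤ 1) ∧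
      ∀ v i, 3 * #{a ∈ D | o a = v ∧ κ a = i} ≤ #{a ∈ D | o a = v} + 2 := by
  obtain ⟨κ, hκ⟩ := equi D o
  refine ⟨fun a => ((κ a : ℕ) : ℤ), fun a => ?_, fun v => ?_, fun v i => ?_⟩
  · have := (κ a).2
    beta_reduce
    omega
  · have h0 := hκ v 0
    have h2 := hκ v 2
    have key : ∑ a ∈ D with o a = v, ((κ a : ℕ) : ℤ) - #{a ∈ D | o a = v} =
        (#{a ∈ D | o a = v ∧ κ a = 2} : ℤ) - #{a ∈ D | o a = v ∧ κ a = 0} := by
      simp only [Finset.card_filter, Finset.sum_filter]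
      push_cast
      rw [← Finset.sum_sub_distrib, ← Finset.sum_sub_distrib]
      refine Finset.sum_congr rfl fun a _ => ?_
      by_cases h : o a = v
      · generalize κ a = k
        fin_cases k <;> simp [h]
      · simp [h]
    rw [key, abs_le]
    omega
  · by_cases hi : 0 ≤ i ∧ i ≤ 2
    · have h1 := (hκ v ⟨i.toNat, by omega⟩).1
      have : (D.filter fun a => o a = v ∧ ((κ a : ℕ) : ℤ) = i) =
          D.filter fun a => o a = v ∧ κ a = ⟨i.toNat, by omega⟩ := by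
        refine Finset.filter_congr fun a _ => ?_
        rw [Fin.ext_iff]
        simp only
        constructor <;> rintro ⟨h1, h2⟩ <;> exact ⟨h1, by omega⟩
      rw [this]
      exact h1
    · have : (D.filter fun a => o a = v ∧ ((κ a : ℕ) : ℤ) = i) = ∅ := by
        rw [Finset.filter_eq_empty_iff]
        rintro a - ⟨-, h2⟩
        have := (κ a).2
        omega
      rw [this]
      simp

/-- the signed sum of the head minus tail function is bounded by the cut -/
lemma head_tail_bound [Fintype W] (s t : E → W) (D : Finset E) (ε : W → ℤ)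
    (hε : ∀ v, ε v = 1 ∨ ε v = -1) (hD : ∀ e ∈ D, ε (s e) = ε (t e)) (z : E → ℤ)
    (hz : ∀ e, z e = 1 ∨ z e = -1) (X : Finset W) :
    |∑ v ∈ X, ε v * (∑ e ∈ D with s e = v, z e - ∑ e ∈ D with t e = v, z e)| ≤ cut s t D X := by
  have key : ∑ v ∈ X, ε v * (∑ e ∈ D with s e = v, z e - ∑ e ∈ D with t e = v, z e) =
      ∑ e ∈ D, ε (s e) * z e * ((if s e ∈ X then 1 else 0) - (if t e ∈ X then 1 else 0)) := by
    simp only [Finset.sum_filter, ← Finset.sum_sub_distrib, Finset.mul_sum]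
    rw [Finset.sum_comm]
    refine Finset.sum_congr rfl fun e he => ?_
    simp only [mul_sub, Finset.sum_sub_distrib, mul_ite, mul_zero, mul_one]
    rw [Finset.sum_ite_eq, Finset.sum_ite_eq, ← hD e he]
  rw [key]
  refine (Finset.abs_sum_le_sum_abs _ _).trans ?_
  unfold cut
  rw [Finset.card_filter]
  push_cast
  refine Finset.sum_le_sum fun e _ => ?_
  rcases hε (s e) with h1 | h1 <;> rcases hz e with h2 | h2 <;>
    by_cases a1 : s e ∈ X <;> by_cases a2 : t e ∈ X <;> simp [h1, h2, a1, a2]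

lemma deg_at_le_one (s t : E → W) (hsim : Simple s t) (D : Finset E) (w v : W) (hv : v ≠ w)
    (hD : ∀ e ∈ D, s e = w ∨ t e = w) : deg s t D v ≤ 1 := by
  unfold deg
  rw [Finset.card_le_one]
  intro e he e' he'
  rw [mem_filter] at he he'
  apply hsim.2
  have k : ∀ e ∈ D, (s e = v ∨ t e = v) → s(s e, t e) = s(v, w) := by
    intro e he h
    rcases hD e he with h1 | h1 <;> rcases h with h2 | h2
    · exact absurd (h2.symm.trans h1) hv
    · rw [h1, h2, Sym2.eq_swap]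
    · rw [h1, h2]
    · exact absurd (h2.symm.trans h1) hv
  rw [k e he.1 he.2, k e' he'.1 he'.2]

end Pool.Agent.P.MP_0ad50f_co
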