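import Pool.Agent.P.MP_0ad50f_co.Basic
import Pool.Agent.P.MP_da739a_co.Orient

/-! Covering lemma for highly edge-connected bipartite multigraphs. -/

open Finset Module

namespace Pool.Agent.P.MP_0ad50f_co

open Pool.Agent.P.MP_da739a_co

lemma sum_chi {W E : Type} [Fintype W] [DecidableEq W] (s t : E → W) (e : E) :
    ∑ v, chi s t e v = 0 := by
  unfold chi
  rw [Finset.sum_sub_distrib, Finset.sum_ite_eq, Finset.sum_ite_eq]
  simp

lemma fiber_chi {W W' E : Type} [Fintype W] [DecidableEq W] [DecidableEq W'] (s t : E → W)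
    (ρ : W → W') (e : E) (r : W') :
    ∑ v with ρ v = r, chi s t e v = chi (ρ ∘ s) (ρ ∘ t) e r := by
  unfold chi
  rw [Finset.sum_sub_distrib, Finset.sum_ite_eq, Finset.sum_ite_eq]
  simp

lemma sum_cut_singleton {W E : Type} [Fintype W] [DecidableEq W] (s t : E → W) (D : Finset E) :
    ∑ v, cut s t D {v} = 2 * #{e ∈ D | s e ≠ t e} := by
  unfold cut
  simp only [Finset.card_filter]
  rw [Finset.sum_comm, Finset.mul_sum]
  refine Finset.sum_congr rfl fun e _ => ?_
  by_cases h : s e = t e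
  · simp [h]
  · have : ∀ v, (if ¬ (s e ∈ ({v} : Finset W) ↔ t e ∈ ({v} : Finset W)) then (1 : ℕ) else 0) =
        (if s e = v then 1 else 0) + (if t e = v then 1 else 0) := by
      intro v
      by_cases a : s e = v <;> by_cases b : t e = v <;> simp_all
    simp only [this, Finset.sum_add_distrib, Finset.sum_ite_eq, mem_univ, if_true, ne_eq, h,
      not_false_eq_true]
    norm_num

lemma rank_lt {W E : Type} [Fintype W] [DecidableEq W] (s t : E → W) (D : Finset E) (w : W) :
    finrank ℝ (Submodule.span ℝ (chi s t '' (D : Set E))) < Fintype.card W := by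
  have hall : ∀ x ∈ Submodule.span ℝ (chi s t '' (D : Set E)), ∑ v, x v = 0 := by
    intro x hx
    induction hx using Submodule.span_induction with
    | mem y hy =>
      obtain ⟨e, -, rfl⟩ := hy
      exact sum_chi s t e
    | zero => simp
    | add y z _ _ h1 h2 => simp [Finset.sum_add_distrib, h1, h2]
    | smul c y _ h1 => simp [← Finset.mul_sum, h1]
  have hne : Submodule.span ℝ (chi s t '' (D : Set E)) ≠ ⊤ := by
    intro h
    have := hall (Pi.single w 1) (by rw [h]; trivial)
    simp at this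
  have := Submodule.finrank_lt hne
  rwa [finrank_fintype_fun_eq_card] at this

lemma cov0 {E : Type} [DecidableEq E] (D : Finset E) (M : ℕ) (hM : 0 < M) (n : ℕ) :
    ∀ (W : Type) [Fintype W] [DecidableEq W] (s t : E → W), Fintype.card W = n →
      (∀ X : Finset W, X.Nonempty → X ≠ univ → 2 * M ≤ cut s t D X) →
      ∀ p : W → ℝ, ∑ v, p v = 0 →
      ∃ (y : E → ℤ) (f : E → ℝ), (∀ e, |f e| ≤ 1) ∧
        ∀ v, p v + 2 * M * ∑ e ∈ D, (y e : ℝ) * chi s t e v = ∑ e ∈ D, f e * chi s t e v := by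
  induction n using Nat.strong_induction_on with
  | _ n ih =>
  intro W _ _ s t hn hconn p hp
  by_cases h1 : Fintype.card W ≤ 1
  · refine ⟨fun _ => 0, fun _ => 0, fun _ => by simp, fun v => ?_⟩
    have hsub : ∀ u, u = v := fun u => Fintype.card_le_one_iff.1 h1 u v
    have : ∑ u, p u = p v := Finset.sum_eq_single v (fun u _ hu => absurd (hsub u) hu) (by simp)
    simp [← this, hp]
  have h2 : 1 < Fintype.card W := by omega
  set D' : Finset E := {e ∈ D | s e ≠ t e} with hD'
  have hbig : M * Fintype.card W ≤ D'.card := by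
    have h3 : ∑ _v : W, 2 * M ≤ ∑ v, cut s t D {v} := by
      refine Finset.sum_le_sum fun v _ => hconn _ (singleton_nonempty v) fun h => ?_
      have := congrArg Finset.card h
      rw [card_singleton, card_univ] at this
      omega
    rw [sum_cut_singleton, Finset.sum_const, card_univ, smul_eq_mul, ← hD'] at h3
    nlinarith
  obtain ⟨w⟩ : Nonempty W := Fintype.card_pos_iff.1 (by omega)
  obtain ⟨F0, hF0D, ⟨e0, he0⟩, hlt, hr⟩ := exists_densest M s t D'
    (fun e he => (mem_filter.1 he).2)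
    ((Nat.mul_lt_mul_of_pos_left (rank_lt s t D' w) hM).trans_le hbig)
  have hF0 : F0 ⊆ D := hF0D.trans (filter_subset _ _)
  obtain ⟨π, hπ, hππ, hW⟩ := exists_contraction s t F0
  let ρ : W → {v // π v = v} := fun v => ⟨π v, hππ v⟩
  have hρ : ∀ r : {v // π v = v}, ρ r.1 = r := fun r => Subtype.ext r.2
  have hcard : Fintype.card {v // π v = v} < n := by
    rw [← hn]
    have hst : s e0 ≠ t e0 := (mem_filter.1 (hF0D he0)).2
    by_cases ha : π (s e0) = s e0
    · refine Fintype.card_subtype_lt (x := t e0) fun hb => hst ?_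
      rw [← ha, hπ e0 he0, hb]
    · exact Fintype.card_subtype_lt (x := s e0) ha
  obtain ⟨y', f', hf', heq'⟩ := ih _ hcard {v // π v = v} (ρ ∘ s) (ρ ∘ t) rfl (by
      intro X hX hXu
      have : cut (ρ ∘ s) (ρ ∘ t) D X = cut s t D {v | ρ v ∈ X} := by
        unfold cut
        simp
      rw [this]
      obtain ⟨x, hx⟩ := hX
      refine hconn _ ⟨x.1, by simpa [hρ] using hx⟩ fun h => hXu ?_
      refine Finset.eq_univ_iff_forall.2 fun r => ?_
      have := Finset.eq_univ_iff_forall.1 h r.1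
      simpa [hρ] using this) (fun r => ∑ v with ρ v = r, p v) (by
      rw [Finset.sum_fiberwise univ ρ p, hp])
  let q : W → ℝ := fun v => p v + 2 * M * ∑ e ∈ D \ F0, (y' e : ℝ) * chi s t e v -
    ∑ e ∈ D \ F0, f' e * chi s t e v
  have hz : ∀ (φ : E → ℝ) (r : {v // π v = v}),
      ∑ v with ρ v = r, ∑ e ∈ D \ F0, φ e * chi s t e v =
        ∑ e ∈ D, φ e * chi (ρ ∘ s) (ρ ∘ t) e r := by
    intro φ r
    rw [Finset.sum_comm, ← Finset.sum_sdiff hF0]
    have h0 : ∑ e ∈ F0, φ e * chi (ρ ∘ s) (ρ ∘ t) e r = 0 := by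
      refine Finset.sum_eq_zero fun e he => ?_
      have : ρ (s e) = ρ (t e) := Subtype.ext (hπ e he)
      simp [chi, this]
    rw [h0, add_zero]
    refine Finset.sum_congr rfl fun e _ => ?_
    rw [← Finset.mul_sum, fiber_chi]
  have hq : ∀ r : {v // π v = v}, ∑ v with ρ v = r, q v = 0 := by
    intro r
    simp only [q]
    rw [Finset.sum_sub_distrib, Finset.sum_add_distrib, ← Finset.mul_sum, hz, hz]
    exact sub_eq_zero.2 (heq' r)
  have hq' : ∀ r : W, ∑ v, (if r = π v then q v else 0) = 0 := by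
    intro r
    by_cases hr' : π r = r
    · have := hq ⟨r, hr'⟩
      rw [Finset.sum_filter] at this
      refine Eq.trans ?_ this
      refine Finset.sum_congr rfl fun v _ => ?_
      have : (r = π v) ↔ ρ v = ⟨r, hr'⟩ := by
        rw [Subtype.ext_iff]
        exact eq_comm
      simp only [this]
    · refine Finset.sum_eq_zero fun v _ => if_neg fun h => hr' ?_
      rw [h, hππ]
  have hqs : q ∈ Submodule.span ℝ (chi s t '' (F0 : Set E)) := by
    have : q = ∑ v, q v • (Pi.single v 1 - Pi.single (π v) 1 : W → ℝ) := by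
      ext r
      simp only [Finset.sum_apply, Pi.smul_apply, Pi.sub_apply, Pi.single_apply, smul_eq_mul,
        mul_sub, Finset.sum_sub_distrib, mul_ite, mul_one, mul_zero, Finset.sum_ite_eq,
        mem_univ, if_true]
      rw [hq', sub_zero]
    rw [this]
    exact Submodule.sum_mem _ fun v _ => Submodule.smul_mem _ _ (hW v)
  obtain ⟨y0, f0, hf0, heq0⟩ := cover (chi s t) F0 M hM hlt hr q hqs
  refine ⟨fun e => if e ∈ F0 then y0 e else y' e, fun e => if e ∈ F0 then f0 e else f' e,
    fun e => by by_cases h : e ∈ F0 <;> simp [h, hf0 e, hf' e], fun v => ?_⟩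
  have h3 := congrFun heq0 v
  simp only [Pi.add_apply, Finset.sum_apply, Pi.smul_apply, smul_eq_mul, q] at h3
  have hsp : ∀ (a b : E → ℝ), ∑ e ∈ D, (if e ∈ F0 then a e else b e) * chi s t e v =
      ∑ e ∈ D \ F0, b e * chi s t e v + ∑ e ∈ F0, a e * chi s t e v := by
    intro a b
    rw [← Finset.sum_sdiff hF0]
    congr 1
    · exact Finset.sum_congr rfl fun e he => by rw [if_neg (mem_sdiff.1 he).2]
    · exact Finset.sum_congr rfl fun e he => by rw [if_pos he]
  have h4 : ∑ e ∈ F0, 2 * (M : ℝ) * (y0 e : ℝ) * chi s t e v =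
      2 * M * ∑ e ∈ F0, (y0 e : ℝ) * chi s t e v := by
    rw [Finset.mul_sum]
    exact Finset.sum_congr rfl fun e _ => by ring
  have h5 := hsp (fun e => (y0 e : ℝ)) (fun e => (y' e : ℝ))
  simp only [Int.cast_ite]
  rw [h5, hsp f0 f']
  rw [h4] at h3
  linarith

/-- TASK Cov -/
theorem cov {W E : Type} [Fintype W] [Fintype E] [DecidableEq W] [DecidableEq E]
    (s t : E → W) (D : Finset E) (ε : W → ℤ) (hε : ∀ v, ε v = 1 ∨ ε v = -1)
    (hs : ∀ e ∈ D, ε (s e) = 1) (ht : ∀ e ∈ D, ε (t e) = -1) (M : ℕ) (hM : 0 < M)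
    (hconn : ∀ X : Finset W, X.Nonempty → X ≠ univ → 2 * M ≤ cut s t D X)
    (p : W → ℝ) (hp : ∑ v, (ε v : ℝ) * p v = 0) :
    ∃ (y : E → ℤ) (f : E → ℝ), (∀ e, |f e| ≤ 1) ∧
      ∀ v, p v + 2 * M * ((dsum s t D y v : ℤ) : ℝ) = dsum s t D f v := by
  obtain ⟨y, f, hf, heq⟩ := cov0 D M hM _ W s t rfl hconn (fun v => (ε v : ℝ) * p v) hp
  refine ⟨y, f, hf, fun v => ?_⟩
  have hd : ∀ g : E → ℝ, ∑ e ∈ D, g e * chi s t e v = ε v * dsum s t D g v := by
    intro g
    unfold dsum
    rw [Finset.mul_sum]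
    refine Finset.sum_congr rfl fun e he => ?_
    have a1 := hs e he
    have a2 := ht e he
    unfold chi
    by_cases b1 : s e = v <;> by_cases b2 : t e = v
    · rw [b1] at a1
      rw [b2] at a2
      omega
    · rw [b1] at a1
      simp [b1, b2, a1]
    · rw [b2] at a2
      simp [b1, b2, a2]
    · simp [b1, b2]
  have h1 := heq v
  rw [hd, hd] at h1
  rw [dsum_cast]
  rcases hε v with h | h <;> rw [h] at h1 <;> push_cast at h1 <;> linarith

end Pool.Agent.P.MP_0ad50f_co
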