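import Pool.Agent.P.MP_0ad50f_co.Round
import Pool.Agent.P.MP_0ad50f_co.Cov

/-! The values on the bipartite part. -/

open Finset

namespace Pool.Agent.P.MP_0ad50f_co

section Aux

variable {W E : Type} [DecidableEq W] {s t : E → W} {D : Finset E}

lemma hp_le {f g : E → ℝ} (h : ∀ e ∈ D, f e ≤ g e) (v : W) :
    dsum s t D f v ≤ dsum s t D g v := by
  simp only [dsum_eq_filter]
  exact sum_le_sum fun e he => h e (mem_filter.1 he).1

lemma hp_filter (p : E → Prop) [DecidablePred p] (f : E → ℝ) (v : W) :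
    dsum s t (D.filter p) f v = dsum s t D (fun e => if p e then f e else 0) v := by
  unfold dsum
  rw [sum_filter]
  exact sum_congr rfl fun e _ => by beta_reduce; split_ifs <;> rfl

lemma hp_deg (v : W) : (deg s t D v : ℝ) = dsum s t D (fun _ => 1) v := by
  rw [dsum_const, mul_one]

lemma hp_degf (p : E → Prop) [DecidablePred p] (v : W) :
    (deg s t (D.filter p) v : ℝ) = dsum s t D (fun e => if p e then 1 else 0) v := by
  rw [hp_deg, hp_filter]

lemma hp_up {p : E → Prop} [DecidablePred p] {f : E → ℝ} {K : ℝ} (h : ∀ e ∈ D, p e → f e ≤ K)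
    (v : W) : dsum s t (D.filter p) f v ≤ K * deg s t (D.filter p) v := by
  rw [mul_comm, ← dsum_const]
  exact hp_le (fun e he => h e (mem_filter.1 he).1 (mem_filter.1 he).2) v

lemma hp_low {p : E → Prop} [DecidablePred p] {f : E → ℝ} {K : ℝ} (h : ∀ e ∈ D, p e → K ≤ f e)
    (v : W) : K * deg s t (D.filter p) v ≤ dsum s t (D.filter p) f v := by
  rw [mul_comm, ← dsum_const]
  exact hp_le (fun e he => h e (mem_filter.1 he).1 (mem_filter.1 he).2) v

omit [DecidableEq W] in
lemma hp_bip {ε : W → ℤ} (hs : ∀ e ∈ D, ε (s e) = 1) (ht : ∀ e ∈ D, ε (t e) = -1) :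
    ∀ e ∈ D, ∀ e' ∈ D, s e ≠ t e' := fun e he e' he' h => by
  have h1 := hs e he
  rw [h, ht e' he'] at h1
  omega

lemma hp_zero [Fintype W] {ε : W → ℤ} (hs : ∀ e ∈ D, ε (s e) = 1) (ht : ∀ e ∈ D, ε (t e) = -1)
    (f : E → ℤ) : ∑ v, ε v * dsum s t D f v = 0 := by
  unfold dsum
  simp only [mul_sum]
  rw [sum_comm]
  refine sum_eq_zero fun e he => ?_
  have h1 : ∀ v, (ε v * if s e = v ∨ t e = v then f e else 0) =
      (if s e = v then f e else 0) - (if t e = v then f e else 0) := fun v => by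
    have h2 := hp_bip hs ht e he e he
    by_cases a : s e = v
    · have b : ¬ t e = v := fun b => h2 (a.trans b.symm)
      have k : ε v = 1 := a ▸ hs e he
      simp [a, b, k]
    · by_cases b : t e = v
      · have k : ε v = -1 := b ▸ ht e he
        simp [a, b, k]
      · simp [a, b]
  simp [h1]

lemma hp_fix [Fintype W] {ε : W → ℤ} (hε : ∀ v, ε v = 1 ∨ ε v = -1) (w₀ : W) (p : W → ℤ) :
    ∃ q : W → ℤ, (∀ v, v ≠ w₀ → q v = p v) ∧ ∑ v, ε v * q v = 0 := by
  refine ⟨fun v => p v - if v = w₀ then ε w₀ * ∑ v, ε v * p v else 0, fun v hv => by simp [hv], ?_⟩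
  simp only [mul_sub, sum_sub_distrib, mul_ite, mul_zero, sum_ite_eq', mem_univ, if_true]
  rcases hε w₀ with h | h <;> simp [h]

variable [Fintype W] [Fintype E] [DecidableEq E]

/-- rounding with integer classes -/
lemma hp_round (hbip : ∀ e ∈ D, ∀ e' ∈ D, s e ≠ t e') (cl : E → ℤ) (f : E → ℝ) :
    ∃ z : E → ℤ, (∀ e ∈ D, f e < z e + 1 ∧ (z e : ℝ) < f e + 1) ∧
      (∀ v, dsum s t D f v < (dsum s t D z v : ℤ) + 1 ∧
        ((dsum s t D z v : ℤ) : ℝ) < dsum s t D f v + 1) ∧
      ∀ v c, |dsum s t (D.filter fun e => cl e = c) (fun e => (z e : ℝ)) v -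
        dsum s t (D.filter fun e => cl e = c) f v| ≤ 1 := by
  have key : ∀ (x : ℝ) (n : ℤ), ⌊x⌋ ≤ n ∧ n ≤ ⌈x⌉ → x < n + 1 ∧ (n : ℝ) < x + 1 := fun x n h => by
    have h1 : ((⌊x⌋ : ℤ) : ℝ) ≤ n := by exact_mod_cast h.1
    have h2 : (n : ℝ) ≤ (⌈x⌉ : ℤ) := by exact_mod_cast h.2
    exact ⟨by linarith [Int.lt_floor_add_one x], by linarith [Int.ceil_lt_add_one x]⟩
  obtain ⟨z, h1, h2, h3⟩ := round (C := univ.image cl) s t D hbip
    (fun e => ⟨cl e, mem_image_of_mem _ (mem_univ e)⟩) f
  refine ⟨z, fun e he => key _ _ (h1 e he), fun v => key _ _ (h2 v), fun v c => ?_⟩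
  by_cases hc : c ∈ univ.image cl
  · have h4 := h3 v ⟨c, hc⟩
    simp only [Subtype.mk.injEq] at h4
    rwa [dsum_cast] at h4
  · have h5 : D.filter (fun e => cl e = c) = ∅ :=
      filter_eq_empty_iff.2 fun e _ h => hc (h ▸ mem_image_of_mem _ (mem_univ e))
    rw [h5]
    simp [dsum]

/-- balanced signs -/
lemma hp_u (hsim : Simple s t) (hbip : ∀ e ∈ D, ∀ e' ∈ D, s e ≠ t e') (w₀ : W) :
    ∃ u : E → ℤ, (∀ e ∈ D, u e = 1 ∨ u e = -1) ∧ (∀ v, v ≠ w₀ → |dsum s t D u v| ≤ 3) ∧
      dsum s t D u w₀ = deg s t D w₀ := by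
  obtain ⟨z, h1, h2, -⟩ := hp_round hbip (fun _ => 0) fun _ => 1 / 2
  have hz : ∀ e ∈ D, z e = 0 ∨ z e = 1 := fun e he => by
    have a : (-1 : ℝ) < z e := by linarith [(h1 e he).1]
    have b : (z e : ℝ) < 2 := by linarith [(h1 e he).2]
    have a' : -1 < z e := by exact_mod_cast a
    have b' : z e < 2 := by exact_mod_cast b
    omega
  refine ⟨fun e => if s e = w₀ ∨ t e = w₀ then 1 else 2 * z e - 1, fun e he => ?_, fun v hv => ?_,
    ?_⟩
  · have := hz e he
    beta_reduce
    split_ifs <;> omega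
  · have e1 : dsum s t D (fun e => if s e = w₀ ∨ t e = w₀ then 1 else 2 * z e - 1) v =
        2 * dsum s t D z v + deg s t D v * (-1) +
          dsum s t D (fun e => if s e = w₀ ∨ t e = w₀ then 2 - 2 * z e else 0) v := by
      rw [← dsum_mul, ← dsum_const, ← dsum_add, ← dsum_add]
      exact dsum_congr _ _ _ _ _ (fun e _ => by split_ifs <;> ring) v
    have e2 : dsum s t D (fun e => if s e = w₀ ∨ t e = w₀ then 2 - 2 * z e else 0) v =
        dsum s t (D.filter fun e => s e = w₀ ∨ t e = w₀) (fun e => 2 - 2 * z e) v := by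
      unfold dsum
      rw [sum_filter]
      exact sum_congr rfl fun e _ => by beta_reduce; split_ifs <;> rfl
    have e3 : deg s t (D.filter fun e => s e = w₀ ∨ t e = w₀) v ≤ 1 := by
      refine card_le_one.2 fun e he e' he' => hsim.2 e e' ?_
      simp only [mem_filter] at he he'
      have k : ∀ e, (s e = w₀ ∨ t e = w₀) → (s e = v ∨ t e = v) → s(s e, t e) = s(w₀, v) := by
        rintro e (a | a) (b | b)
        · exact absurd (b.symm.trans a) hv
        · rw [a, b]
        · rw [a, b, Sym2.eq_swap]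
        · exact absurd (b.symm.trans a) hv
      rw [k e he.1.2 he.2, k e' he'.1.2 he'.2]
    have e4 := abs_dsum_le s t (D.filter fun e => s e = w₀ ∨ t e = w₀) (fun e => 2 - 2 * z e) 2
      (fun e he => by rcases hz e (mem_filter.1 he).1 with h | h <;> simp [h]) v
    obtain ⟨a, b⟩ := h2 v
    rw [dsum_const] at a b
    have a' : (deg s t D v : ℤ) < 2 * dsum s t D z v + 2 := by
      have : (deg s t D v : ℝ) < 2 * (dsum s t D z v : ℤ) + 2 := by linarith
      exact_mod_cast this
    have b' : 2 * dsum s t D z v < (deg s t D v : ℤ) + 2 := by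
      have : 2 * ((dsum s t D z v : ℤ) : ℝ) < deg s t D v + 2 := by linarith
      exact_mod_cast this
    rw [e1, e2]
    rw [abs_le] at e4 ⊢
    omega
  · rw [deg_eq_dsum]
    unfold dsum
    exact sum_congr rfl fun e _ => by beta_reduce; split_ifs <;> rfl

/-- the middle values -/
lemma hp_a {ε : W → ℤ} (hsim : Simple s t) (hε : ∀ v, ε v = 1 ∨ ε v = -1)
    (hs : ∀ e ∈ D, ε (s e) = 1) (ht : ∀ e ∈ D, ε (t e) = -1)
    (hconn : ∀ X : Finset W, X.Nonempty → X ≠ univ → 2000 ≤ cut s t D X) (w₀ : W) (b : W → ℤ)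
    (hb : ∑ v, ε v * b v = 0) :
    ∃ a : E → ℤ, (∀ e ∈ D, a e = 1 ∨ a e = 0 ∨ a e = -1) ∧
      (∀ v, ∃ k, dsum s t D a v = b v + 2 * k) ∧
      (∀ v, v ≠ w₀ → |((dsum s t D a v : ℤ) : ℝ)| ≤ 1.35 + 0.001 * deg s t D v) ∧
      0.449 * (deg s t D w₀ : ℝ) ≤ (dsum s t D a w₀ : ℤ) ∧
      ∀ v, (deg s t (D.filter fun e => a e = 1) v : ℝ) ≤ 0.451 * deg s t D v + 1 ∧
        (deg s t (D.filter fun e => a e = -1) v : ℝ) ≤ 0.451 * deg s t D v + 1 ∧
        (deg s t (D.filter fun e => a e = 0) v : ℝ) ≤ 0.551 * deg s t D v + 2 ∧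
        (deg s t (D.filter fun e => a e = 1) v : ℝ) + deg s t (D.filter fun e => a e = -1) v ≤
          0.451 * deg s t D v + 2 := by
  have hbip := hp_bip hs ht
  obtain ⟨u, hu, hu1, hu2⟩ := hp_u hsim hbip w₀
  obtain ⟨y, f, hf, hy⟩ := cov s t D ε hε hs ht 1000 (by norm_num) hconn
    (fun v => 1000 * b v - 450 * (dsum s t D u v : ℤ)) (by
      have h1 : ∑ v, ε v * (1000 * b v - 450 * dsum s t D u v) = 0 := by
        simp only [mul_sub, mul_left_comm (ε _), sum_sub_distrib, ← mul_sum, hb, hp_zero hs ht]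
        rfl
      exact_mod_cast h1)
  obtain ⟨a, h1, h2, h3⟩ := hp_round hbip u fun e => 0.45 * u e + 0.001 * f e
  have hf' : ∀ e, -1 ≤ f e ∧ f e ≤ 1 := fun e => abs_le.1 (hf e)
  have ha : ∀ e ∈ D, (u e = 1 ∧ (a e = 0 ∨ a e = 1)) ∨ (u e = -1 ∧ (a e = 0 ∨ a e = -1)) := by
    intro e he
    obtain ⟨p, q⟩ := h1 e he
    obtain ⟨p', q'⟩ := hf' e
    rcases hu e he with h | h <;> rw [h] at p q <;> push_cast at p q
    · have a1 : -1 < a e := by exact_mod_cast (by linarith : (-1 : ℝ) < a e)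
      have a2 : a e < 2 := by exact_mod_cast (by linarith : (a e : ℝ) < 2)
      omega
    · have a1 : -2 < a e := by exact_mod_cast (by linarith : (-2 : ℝ) < a e)
      have a2 : a e < 1 := by exact_mod_cast (by linarith : (a e : ℝ) < 1)
      omega
  have e1 : ∀ v, dsum s t D (fun e => 0.45 * (u e : ℝ) + 0.001 * f e) v =
      0.45 * ((dsum s t D u v : ℤ) : ℝ) + 0.001 * dsum s t D f v := fun v => by
    rw [dsum_add, dsum_mul, dsum_mul, dsum_cast]
  have e2 : ∀ v, dsum s t D a v = b v + 2 * dsum s t D y v := fun v => by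
    obtain ⟨p, q⟩ := h2 v
    have r := hy v
    rw [e1] at p q
    push_cast at r
    have a1 : b v + 2 * dsum s t D y v < dsum s t D a v + 1 := by
      exact_mod_cast (by linarith : (b v : ℝ) + 2 * (dsum s t D y v : ℤ) < (dsum s t D a v : ℤ) + 1)
    have a2 : dsum s t D a v < b v + 2 * dsum s t D y v + 1 := by
      exact_mod_cast (by linarith : ((dsum s t D a v : ℤ) : ℝ) < b v + 2 * (dsum s t D y v : ℤ) + 1)
    omega
  have e3 : ∀ v, ((dsum s t D a v : ℤ) : ℝ) =
      0.45 * ((dsum s t D u v : ℤ) : ℝ) + 0.001 * dsum s t D f v := fun v => by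
    have r := hy v
    rw [e2]
    push_cast at r ⊢
    linarith
  have e4 : ∀ v, |dsum s t D f v| ≤ 1 * deg s t D v := abs_dsum_le_real s t D f 1 fun e _ => hf e
  refine ⟨a, fun e he => by have := ha e he; omega, fun v => ⟨_, e2 v⟩, fun v hv => ?_, ?_,
    fun v => ?_⟩
  · have p : |((dsum s t D u v : ℤ) : ℝ)| ≤ 3 := by exact_mod_cast hu1 v hv
    have q := e4 v
    rw [e3]
    rw [abs_le] at p q ⊢
    constructor <;> linarith [p.1, p.2, q.1, q.2]
  · rw [e3, hu2]
    push_cast
    linarith [(abs_le.1 (e4 w₀)).1]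
  · have p1 := abs_le.1 (h3 v 1)
    have p2 := abs_le.1 (h3 v (-1))
    have q1 := hp_up (s := s) (t := t) (D := D) (p := fun e => u e = 1) (K := 0.451)
      (f := fun e => 0.45 * (u e : ℝ) + 0.001 * f e)
      (fun e _ h => by rw [h]; push_cast; linarith [(hf' e).2]) v
    have q2 := hp_low (s := s) (t := t) (D := D) (p := fun e => u e = 1) (K := 0.449)
      (f := fun e => 0.45 * (u e : ℝ) + 0.001 * f e)
      (fun e _ h => by rw [h]; push_cast; linarith [(hf' e).1]) v
    have q3 := hp_up (s := s) (t := t) (D := D) (p := fun e => u e = -1) (K := -0.449)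
      (f := fun e => 0.45 * (u e : ℝ) + 0.001 * f e)
      (fun e _ h => by rw [h]; push_cast; linarith [(hf' e).2]) v
    have q4 := hp_low (s := s) (t := t) (D := D) (p := fun e => u e = -1) (K := -0.451)
      (f := fun e => 0.45 * (u e : ℝ) + 0.001 * f e)
      (fun e _ h => by rw [h]; push_cast; linarith [(hf' e).1]) v
    have r1 : (deg s t (D.filter fun e => a e = 1) v : ℝ) =
        dsum s t (D.filter fun e => u e = 1) (fun e => (a e : ℝ)) v := by
      rw [hp_degf, hp_filter]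
      refine dsum_congr _ _ _ _ _ (fun e he => ?_) v
      rcases ha e he with ⟨h, h' | h'⟩ | ⟨h, h' | h'⟩ <;> simp [h, h']
    have r2 : (deg s t (D.filter fun e => a e = -1) v : ℝ) =
        -1 * dsum s t (D.filter fun e => u e = -1) (fun e => (a e : ℝ)) v := by
      rw [hp_degf, hp_filter, ← dsum_mul]
      refine dsum_congr _ _ _ _ _ (fun e he => ?_) v
      rcases ha e he with ⟨h, h' | h'⟩ | ⟨h, h' | h'⟩ <;> simp [h, h']
    have r3 : (deg s t (D.filter fun e => u e = 1) v : ℝ) +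
        deg s t (D.filter fun e => u e = -1) v = deg s t D v := by
      rw [hp_degf, hp_degf, hp_deg, ← dsum_add]
      refine dsum_congr _ _ _ _ _ (fun e he => ?_) v
      rcases hu e he with h | h <;> simp [h]
    have r4 : (deg s t (D.filter fun e => a e = 0) v : ℝ) + deg s t (D.filter fun e => a e = 1) v +
        deg s t (D.filter fun e => a e = -1) v = deg s t D v := by
      rw [hp_degf, hp_degf, hp_degf, hp_deg, ← dsum_add, ← dsum_add]
      refine dsum_congr _ _ _ _ _ (fun e he => ?_) v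
      rcases ha e he with ⟨-, h' | h'⟩ | ⟨-, h' | h'⟩ <;> simp [h']
    have n1 : (0 : ℝ) ≤ deg s t (D.filter fun e => u e = 1) v := Nat.cast_nonneg _
    have n2 : (0 : ℝ) ≤ deg s t (D.filter fun e => u e = -1) v := Nat.cast_nonneg _
    refine ⟨?_, ?_, ?_, ?_⟩ <;> linarith [p1.1, p1.2, p2.1, p2.2]

omit [Fintype W] in
lemma hp_cap (X : Finset W) : MP_da739a_co.capOut s t (fun e => if e ∈ D then -531 else 0)
    (fun e => if e ∈ D then 531 else 0) X = 531 * cut s t D X := by
  unfold MP_da739a_co.capOut cut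
  rw [card_filter, Nat.cast_sum, mul_sum, ← sum_subset (subset_univ D) fun e _ he => by simp [he]]
  refine sum_congr rfl fun e he => ?_
  by_cases a : s e ∈ X <;> by_cases b : t e ∈ X <;> simp [a, b, he]

/-- the compensating flow -/
lemma hp_flow {ε : W → ℤ} (hε : ∀ v, ε v = 1 ∨ ε v = -1) (hs : ∀ e ∈ D, ε (s e) = 1)
    (ht : ∀ e ∈ D, ε (t e) = -1) (h : W → ℤ)
    (hX : ∀ X : Finset W, 1000 * |∑ v ∈ X, ε v * h v| ≤ 531 * cut s t D X) :
    ∃ φ : E → ℤ, (∀ e, |φ e| ≤ 531) ∧ ∀ v, dsum s t D φ v = 1000 * h v := by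
  obtain ⟨φ, h1, h2⟩ := MP_da739a_co.hoffman' s t (fun v => 1000 * (ε v * h v)) (by
      have h0 := hX univ
      rw [show cut s t D univ = 0 by simp [cut]] at h0
      rw [← mul_sum, abs_nonpos_iff.1 (by omega : |∑ v, ε v * h v| ≤ 0), mul_zero])
    (fun e => if e ∈ D then -531 else 0) (fun e => if e ∈ D then 531 else 0)
    (fun e => by split_ifs <;> omega) fun X => by
      rw [hp_cap, ← mul_sum]
      linarith [hX X, le_abs_self (∑ v ∈ X, ε v * h v)]
  refine ⟨φ, fun e => ?_, fun v => ?_⟩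
  · have := h1 e
    rw [abs_le]
    split_ifs at this <;> omega
  · have e1 : MP_da739a_co.bdry s t φ v = ε v * dsum s t D φ v := by
      unfold MP_da739a_co.bdry dsum
      rw [mul_sum, ← sum_subset (subset_univ D) fun e _ he => by
        have := h1 e
        simp only [he, if_false] at this
        simp [le_antisymm this.2 this.1]]
      refine sum_congr rfl fun e he => ?_
      have h3 := hp_bip hs ht e he e he
      by_cases a : s e = v
      · have b : ¬ t e = v := fun b => h3 (a.trans b.symm)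
        have k : ε v = 1 := a ▸ hs e he
        simp [a, b, k]
      · by_cases b : t e = v
        · have k : ε v = -1 := b ▸ ht e he
          simp [a, b, k]
        · simp [a, b]
    have e2 := h2 v
    rw [e1] at e2
    rcases hε v with k | k <;> rw [k] at e2 <;> linarith

end Aux

/-- TASK HPart -/
theorem hpart {W E : Type} [Fintype W] [Fintype E] [DecidableEq W] [DecidableEq E]
    (s t : E → W) (hsim : Simple s t) (D : Finset E) (ε : W → ℤ) (hε : ∀ v, ε v = 1 ∨ ε v = -1)
    (hs : ∀ e ∈ D, ε (s e) = 1) (ht : ∀ e ∈ D, ε (t e) = -1)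
    (hconn : ∀ X : Finset W, X.Nonempty → X ≠ univ → 2000 ≤ cut s t D X)
    (w₀ : W) (r μ : W → ℤ) (hμ : Even (∑ v, μ v)) :
    ∃ g : W → ℤ, (∀ v, v ≠ w₀ → g v ≡ r v [ZMOD 4]) ∧
      (∀ v, v ≠ w₀ → 1000 * |g v| ≤ 4 * deg s t D v + 3000) ∧
      650 * (deg s t D w₀ : ℤ) ≤ 1000 * g w₀ ∧
      ∀ h : W → ℤ, (∀ v, h v ≡ μ v [ZMOD 2]) →
        (∀ X : Finset W, 1000 * |∑ v ∈ X, ε v * h v| ≤ 531 * cut s t D X) →
        ∃ x : E → ℤ, (∀ e, -2 ≤ x e ∧ x e ≤ 2) ∧ (∀ v, dsum s t D x v = g v + h v) ∧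
          ∀ v (a : ℤ), 1000 * deg s t (D.filter fun e => x e = a) v ≤
            (if a = 1 ∨ a = -1 then 423 else 451) * deg s t D v + 4000 := by
  have hbip := hp_bip hs ht
  obtain ⟨b, hb1, hb2⟩ := hp_fix hε w₀ fun v => r v + deg s t D v + μ v
  obtain ⟨a, ha, ha1, ha2, ha3, ha4⟩ := hp_a hsim hε hs ht hconn w₀ b hb2
  obtain ⟨q, hq1, hq2⟩ := hp_fix hε w₀ fun v => r v - dsum s t D a v
  obtain ⟨y, f, hf, hy⟩ := cov s t D ε hε hs ht 1000 (by norm_num) hconn
    (fun v => 500 * q v - 233.5 * (dsum s t D a v : ℤ)) (by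
      have h1 : ∑ v, (ε v : ℝ) * q v = 0 := by exact_mod_cast hq2
      have h2 : ∑ v, (ε v : ℝ) * (dsum s t D a v : ℤ) = 0 := by exact_mod_cast hp_zero hs ht a
      simp only [mul_sub, mul_left_comm (ε _ : ℝ), sum_sub_distrib, ← mul_sum, h1, h2]
      norm_num)
  set ψ : W → ℤ := fun v => q v + 4 * dsum s t D y v with hψ
  have eψ : ∀ v, (ψ v : ℝ) = 0.467 * (dsum s t D a v : ℤ) + 0.002 * dsum s t D f v := fun v => by
    have := hy v
    simp only [hψ]
    push_cast at this ⊢
    linarith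
  have e4 : ∀ v, |dsum s t D f v| ≤ 1 * deg s t D v := abs_dsum_le_real s t D f 1 fun e _ => hf e
  have par : ∀ v, Even (ε v * (ψ v + deg s t D v) + μ v) := by
    have k : ∀ v, v ≠ w₀ → Even (ε v * (ψ v + deg s t D v) + μ v) := fun v hv => by
      obtain ⟨k, hk⟩ := ha1 v
      have h1 := hb1 v hv
      have h2 := hq1 v hv
      simp only [hψ, Int.even_iff]
      rcases hε v with h | h <;> rw [h] <;> omega
    intro v
    by_cases hv : v = w₀
    · have h1 : ∑ v, (ε v * (ψ v + deg s t D v) + μ v) = ∑ v, μ v := by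
        simp only [hψ, deg_eq_dsum, mul_add, mul_left_comm (ε _), sum_add_distrib, ← mul_sum, hq2,
          hp_zero hs ht]
        ring
      rw [← h1, ← add_sum_erase _ _ (mem_univ w₀)] at hμ
      rw [hv]
      exact (Int.even_add.1 hμ).2 (even_sum _ fun v hv => k v (ne_of_mem_erase hv))
    · exact k v hv
  refine ⟨fun v => dsum s t D a v + ψ v, fun v hv => ?_, fun v hv => ?_, ?_, fun h hh hX => ?_⟩
  · have := hq1 v hv
    simp only [hψ, Int.ModEq]
    omega
  · have p := abs_le.1 (ha2 v hv)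
    have p' := abs_le.1 (e4 v)
    have n : (0 : ℝ) ≤ deg s t D v := Nat.cast_nonneg _
    have : |((dsum s t D a v : ℤ) : ℝ) + ψ v| ≤ 0.004 * deg s t D v + 3 := by
      rw [eψ, abs_le]
      constructor <;> linarith [p.1, p.2, p'.1, p'.2]
    exact_mod_cast (by linarith :
      1000 * |((dsum s t D a v : ℤ) : ℝ) + ψ v| ≤ 4 * deg s t D v + 3000)
  · have n : (0 : ℝ) ≤ deg s t D w₀ := Nat.cast_nonneg _
    exact_mod_cast (by linarith [eψ w₀, (abs_le.1 (e4 w₀)).1] :
      650 * (deg s t D w₀ : ℝ) ≤ 1000 * (((dsum s t D a w₀ : ℤ) : ℝ) + ψ w₀))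
  obtain ⟨φ, hφ, hφ2⟩ := hp_flow hε hs ht h hX
  have hφ' : ∀ e, (-531 : ℝ) ≤ φ e ∧ (φ e : ℝ) ≤ 531 := fun e => by
    exact_mod_cast abs_le.1 (hφ e)
  have hf' : ∀ e, -1 ≤ f e ∧ f e ≤ 1 := fun e => abs_le.1 (hf e)
  set τ : E → ℝ := fun e => 0.2335 * a e + 0.001 * f e + 0.0005 * φ e + 0.5 with hτ
  obtain ⟨z, h1, h2, h3⟩ := hp_round hbip a τ
  have hz : ∀ e ∈ D, z e = 0 ∨ z e = 1 := fun e he => by
    obtain ⟨p, p'⟩ := h1 e he
    have k : (-1 : ℝ) ≤ a e ∧ (a e : ℝ) ≤ 1 := by
      rcases ha e he with k | k | k <;> rw [k] <;> norm_num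
    simp only [hτ] at p p'
    have a1 : -1 < z e := by
      exact_mod_cast (by linarith [k.1, (hf' e).1, (hφ' e).1] : (-1 : ℝ) < z e)
    have a2 : z e < 2 := by
      exact_mod_cast (by linarith [k.2, (hf' e).2, (hφ' e).2] : (z e : ℝ) < 2)
    omega
  refine ⟨fun e => if e ∈ D then a e + 2 * z e + -1 else 0, fun e => ?_, fun v => ?_,
    fun v j => ?_⟩
  · beta_reduce
    split_ifs with he
    · have := ha e he
      have := hz e he
      omega
    · omega
  · rw [dsum_congr s t D _ (fun e => a e + 2 * z e + -1) fun e he => if_pos he, dsum_add, dsum_add,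
      dsum_mul, dsum_const]
    obtain ⟨p, p'⟩ := h2 v
    have e1 : dsum s t D τ v = (ψ v + h v + deg s t D v) / 2 := by
      have e2 : ((dsum s t D φ v : ℤ) : ℝ) = 1000 * h v := by exact_mod_cast hφ2 v
      rw [hτ, dsum_add, dsum_add, dsum_add, dsum_mul, dsum_mul, dsum_mul, dsum_const, ← dsum_cast,
        ← dsum_cast, e2, eψ]
      ring
    rw [e1] at p p'
    have a1 : ψ v + h v + deg s t D v < 2 * dsum s t D z v + 2 := by
      exact_mod_cast (by linarith :
        (ψ v : ℝ) + h v + deg s t D v < 2 * (dsum s t D z v : ℤ) + 2)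
    have a2 : 2 * dsum s t D z v < ψ v + h v + deg s t D v + 2 := by
      exact_mod_cast (by linarith :
        2 * ((dsum s t D z v : ℤ) : ℝ) < ψ v + h v + deg s t D v + 2)
    have a3 := Int.even_iff.1 (par v)
    have a4 : h v % 2 = μ v % 2 := hh v
    beta_reduce
    rcases hε v with k | k <;> rw [k] at a3 <;> omega
  · obtain ⟨c1, c2, c3, c4⟩ := ha4 v
    have p0 := abs_le.1 (h3 v 0)
    have p1 := abs_le.1 (h3 v 1)
    have p2 := abs_le.1 (h3 v (-1))
    have q1 := hp_up (s := s) (t := t) (D := D) (p := fun e => a e = 0) (K := 0.7665) (f := τ)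
      (fun e _ k => by simp only [hτ, k]; push_cast; linarith [(hf' e).2, (hφ' e).2]) v
    have q2 := hp_low (s := s) (t := t) (D := D) (p := fun e => a e = 0) (K := 0.2335) (f := τ)
      (fun e _ k => by simp only [hτ, k]; push_cast; linarith [(hf' e).1, (hφ' e).1]) v
    have q3 := hp_low (s := s) (t := t) (D := D) (p := fun e => a e = 1) (K := 0.467) (f := τ)
      (fun e _ k => by simp only [hτ, k]; push_cast; linarith [(hf' e).1, (hφ' e).1]) v
    have q4 := hp_up (s := s) (t := t) (D := D) (p := fun e => a e = -1) (K := 0.533) (f := τ)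
      (fun e _ k => by simp only [hτ, k]; push_cast; linarith [(hf' e).2, (hφ' e).2]) v
    have n : (0 : ℝ) ≤ deg s t D v := Nat.cast_nonneg _
    have key : (deg s t (D.filter fun e => (if e ∈ D then a e + 2 * z e + -1 else 0) = j) v : ℝ) ≤
        (if j = 1 ∨ j = -1 then 0.423 else 0.451) * deg s t D v + 4 := by
      rw [hp_degf]
      by_cases j1 : j = 1
      · refine (hp_le (g := fun e => if a e = 0 then (z e : ℝ) else 0) (fun e he => ?_) v).trans ?_
        · rcases ha e he with k | k | k <;> rcases hz e he with k' | k' <;> simp [he, k, k', j1]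
        · rw [← hp_filter, if_pos (Or.inl j1)]
          linarith [p0.2]
      by_cases j2 : j = -1
      · refine (hp_le (g := fun e => (if a e = 0 then (1 : ℝ) else 0) +
          -1 * if a e = 0 then (z e : ℝ) else 0) (fun e he => ?_) v).trans ?_
        · rcases ha e he with k | k | k <;> rcases hz e he with k' | k' <;> simp [he, k, k', j2]
        · rw [dsum_add, dsum_mul, ← hp_degf, ← hp_filter, if_pos (Or.inr j2)]
          linarith [p0.1]
      rw [if_neg (not_or.2 ⟨j1, j2⟩)]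
      by_cases j3 : j = 0
      · refine (hp_le (g := fun e => ((if a e = 1 then (1 : ℝ) else 0) +
          -1 * if a e = 1 then (z e : ℝ) else 0) + if a e = -1 then (z e : ℝ) else 0)
          (fun e he => ?_) v).trans ?_
        · rcases ha e he with k | k | k <;> rcases hz e he with k' | k' <;> simp [he, k, k', j3]
        · rw [dsum_add, dsum_add, dsum_mul, ← hp_degf, ← hp_filter, ← hp_filter]
          linarith [p1.1, p2.2]
      by_cases j4 : 0 < j
      · refine (hp_le (g := fun e => if a e = 1 then (1 : ℝ) else 0) (fun e he => ?_) v).trans ?_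
        · have := ha e he
          have := hz e he
          rw [if_pos he]
          split_ifs <;> first | omega | norm_num
        · rw [← hp_degf]
          linarith
      · refine (hp_le (g := fun e => if a e = -1 then (1 : ℝ) else 0) (fun e he => ?_) v).trans ?_
        · have := ha e he
          have := hz e he
          rw [if_pos he]
          split_ifs <;> first | omega | norm_num
        · rw [← hp_degf]
          linarith
    have key2 : (1000 : ℝ) * deg s t
        (D.filter fun e => (if e ∈ D then a e + 2 * z e + -1 else 0) = j) v ≤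
        (if j = 1 ∨ j = -1 then 423 else 451) * deg s t D v + 4000 := by
      split_ifs at key ⊢ <;> linarith
    exact_mod_cast key2

end Pool.Agent.P.MP_0ad50f_co
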