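import Pool.Agent.P.MP_0ad50f_co.CoreA
import Pool.Agent.P.MP_0ad50f_co.HPart

/-! The colouring of one part once the edges are sorted into five classes. -/

open Finset

namespace Pool.Agent.P.MP_0ad50f_co

variable {W E F : Type} [DecidableEq W]

/-- owner of a sign -/
def oC [DecidableEq E] [DecidableEq F] (s : E → W) (DN Z : Finset E) (oZ : E → W) (ZF : Finset F)
    (own : F → W) : E ⊕ F → Option W
  | .inl e => if e ∈ DN then some (s e) else if e ∈ Z then some (oZ e) else none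
  | .inr f => if f ∈ ZF then some (own f) else none

/-- passive end of a sign -/
def qC [DecidableEq E] (Z : Finset E) (qZ : E → W) : E ⊕ F → Option W
  | .inl e => if e ∈ Z then some (qZ e) else none
  | .inr _ => none

lemma sum_oC [Fintype E] [Fintype F] [DecidableEq E] [DecidableEq F] (s : E → W)
    (DN Z : Finset E) (hd : ∀ e ∈ DN, e ∉ Z) (oZ : E → W) (ZF : Finset F) (own : F → W)
    (z : E ⊕ F → ℤ) (v : W) :
    ∑ c with oC s DN Z oZ ZF own c = some v, z c =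
      ∑ e ∈ DN with s e = v, z (.inl e) + ∑ e ∈ Z with oZ e = v, z (.inl e) +
        ∑ f ∈ ZF with own f = v, z (.inr f) := by
  have key : ∀ {A : Type} [Fintype A] [DecidableEq A] (D : Finset A) (p : A → Prop)
      [DecidablePred p] (g : A → ℤ),
      ∑ e ∈ D with p e, g e = ∑ e, if e ∈ D ∧ p e then g e else 0 := by
    intro A _ _ D p _ g
    rw [← Finset.sum_filter]
    congr 1
    ext a; simp
  rw [Finset.sum_filter, Fintype.sum_sum_type, key DN, key Z, key ZF, ← Finset.sum_add_distrib]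
  congr 1
  · refine Finset.sum_congr rfl fun e _ => ?_
    by_cases h1 : e ∈ DN
    · have := hd e h1
      simp [oC, h1, this]
    · by_cases h2 : e ∈ Z <;> simp [oC, h1, h2]
  · refine Finset.sum_congr rfl fun f _ => ?_
    by_cases h1 : f ∈ ZF <;> simp [oC, h1]

lemma sum_qC [Fintype E] [Fintype F] [DecidableEq E] (Z : Finset E) (qZ : E → W)
    (z : E ⊕ F → ℤ) (v : W) :
    ∑ c with (qC Z qZ c : Option W) = some v, z c = ∑ e ∈ Z with qZ e = v, z (.inl e) := by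
  rw [Finset.sum_filter, Fintype.sum_sum_type, Finset.sum_filter]
  have h2 : ∑ f : F, (if (qC Z qZ (.inr f : E ⊕ F) : Option W) = some v then z (.inr f) else 0)
      = 0 := Finset.sum_eq_zero fun f _ => by simp [qC]
  rw [h2, add_zero]
  have h3 : ∑ e ∈ Z, (if qZ e = v then z (.inl e) else 0) =
      ∑ e, if e ∈ Z then (if qZ e = v then z (.inl e) else 0) else 0 := by
    rw [Finset.sum_ite_mem, univ_inter]
  rw [h3]
  refine Finset.sum_congr rfl fun e _ => ?_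
  by_cases h1 : e ∈ Z <;> simp [qC, h1]

lemma dsum_oq (s t : E → W) (hl : ∀ e, s e ≠ t e) (Z : Finset E) (oZ qZ : E → W)
    (hZ : ∀ e ∈ Z, (s e = oZ e ∧ t e = qZ e) ∨ (t e = oZ e ∧ s e = qZ e)) (z : E → ℤ) (v : W) :
    dsum s t Z z v = ∑ e ∈ Z with oZ e = v, z e + ∑ e ∈ Z with qZ e = v, z e := by
  unfold dsum
  rw [Finset.sum_filter, Finset.sum_filter, ← Finset.sum_add_distrib]
  refine Finset.sum_congr rfl fun e he => ?_
  have := hl e
  rcases hZ e he with ⟨h1, h2⟩ | ⟨h1, h2⟩ <;> rw [← h1, ← h2] <;>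
    by_cases a1 : s e = v <;> by_cases a2 : t e = v <;> simp_all

lemma greedy3 [Fintype W] [Fintype E] [Fintype F] [DecidableEq E] [DecidableEq F]
    (rank : W → ℕ) (hr : Function.Injective rank) (s t : E → W) (hl : ∀ e, s e ≠ t e)
    (DN Z : Finset E) (hd : ∀ e ∈ DN, e ∉ Z) (oZ qZ : E → W) (ZF : Finset F) (own : F → W)
    (hZ : ∀ e ∈ Z, rank (oZ e) < rank (qZ e) ∧
      ((s e = oZ e ∧ t e = qZ e) ∨ (t e = oZ e ∧ s e = qZ e)))
    (hN : ∀ e ∈ DN, rank (t e) < rank (s e)) (base : W → ℤ) (Forb : W → Finset ℤ)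
    (hc : ∀ v, (Forb v).card ≤ #{e ∈ Z | oZ e = v} + #{f ∈ ZF | own f = v}) :
    ∃ (z : E → ℤ) (zf : F → ℤ) (σ : W → ℤ), (∀ e, z e = 1 ∨ z e = -1) ∧
      (∀ f, zf f = 1 ∨ zf f = -1) ∧
      (∀ v, σ v = base v + 2 * (∑ e ∈ DN with s e = v, z e + dsum s t Z z v +
        ∑ f ∈ ZF with own f = v, zf f)) ∧
      (∀ v, σ v ∉ Forb v) ∧ ∀ e ∈ DN, σ (s e) ≠ σ (t e) := by
  obtain ⟨z, σ, h1, h2, h3, h4⟩ := greedy rank hr (oC s DN Z oZ ZF own) (qC Z qZ)
    (by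
      rintro (e | f) v h
      · by_cases he : e ∈ Z
        · have hn : e ∉ DN := fun h' => hd e h' he
          simp only [qC, he, if_true, Option.some.injEq] at h
          exact ⟨oZ e, by simp [oC, he, hn], h ▸ (hZ e he).1⟩
        · simp [qC, he] at h
      · simp [qC] at h)
    base (fun v => (DN.filter fun e => s e = v).image t)
    (by
      intro v u hu
      obtain ⟨e, he, rfl⟩ := mem_image.1 hu
      obtain ⟨he1, rfl⟩ := mem_filter.1 he
      exact hN e he1)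
    Forb
    (by
      intro v
      have h1 := sum_oC s DN Z hd oZ ZF own (fun _ => 1) v
      simp only [Finset.sum_const, nsmul_eq_mul, mul_one] at h1
      have h2 : ((DN.filter fun e => s e = v).image t).card ≤ #{e ∈ DN | s e = v} :=
        Finset.card_image_le
      have h3 := hc v
      omega)
  refine ⟨fun e => z (.inl e), fun f => z (.inr f), σ, fun e => h1 _, fun f => h1 _,
    fun v => ?_, h3, fun e he => ?_⟩
  · rw [h2 v, sum_oC s DN Z hd, sum_qC, dsum_oq s t hl Z oZ qZ (fun e he => (hZ e he).2)]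
    ring
  · exact h4 (s e) (t e) (mem_image.2 ⟨e, mem_filter.2 ⟨he, rfl⟩, rfl⟩)

lemma dsum_part5 [Fintype E] [DecidableEq E] (s t : E → W) (D1 D2 D3 D4 D5 : Finset E)
    (h : ∀ e, (e ∈ D1 ∧ e ∉ D2 ∧ e ∉ D3 ∧ e ∉ D4 ∧ e ∉ D5) ∨
      (e ∉ D1 ∧ e ∈ D2 ∧ e ∉ D3 ∧ e ∉ D4 ∧ e ∉ D5) ∨
      (e ∉ D1 ∧ e ∉ D2 ∧ e ∈ D3 ∧ e ∉ D4 ∧ e ∉ D5) ∨
      (e ∉ D1 ∧ e ∉ D2 ∧ e ∉ D3 ∧ e ∈ D4 ∧ e ∉ D5) ∨
      (e ∉ D1 ∧ e ∉ D2 ∧ e ∉ D3 ∧ e ∉ D4 ∧ e ∈ D5)) (g : E → ℤ) (v : W) :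
    dsum s t univ g v = dsum s t D1 g v + dsum s t D2 g v + dsum s t D3 g v + dsum s t D4 g v +
      dsum s t D5 g v := by
  unfold dsum
  exact sum_part5 D1 D2 D3 D4 D5 h _

lemma deg_part5 [Fintype E] [DecidableEq E] (s t : E → W) (D1 D2 D3 D4 D5 : Finset E)
    (h : ∀ e, (e ∈ D1 ∧ e ∉ D2 ∧ e ∉ D3 ∧ e ∉ D4 ∧ e ∉ D5) ∨
      (e ∉ D1 ∧ e ∈ D2 ∧ e ∉ D3 ∧ e ∉ D4 ∧ e ∉ D5) ∨
      (e ∉ D1 ∧ e ∉ D2 ∧ e ∈ D3 ∧ e ∉ D4 ∧ e ∉ D5) ∨
      (e ∉ D1 ∧ e ∉ D2 ∧ e ∉ D3 ∧ e ∈ D4 ∧ e ∉ D5) ∨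
      (e ∉ D1 ∧ e ∉ D2 ∧ e ∉ D3 ∧ e ∉ D4 ∧ e ∈ D5)) (p : E → Prop) [DecidablePred p] (v : W) :
    deg s t (univ.filter p) v = deg s t (D1.filter p) v + deg s t (D2.filter p) v +
      deg s t (D3.filter p) v + deg s t (D4.filter p) v + deg s t (D5.filter p) v := by
  have := dsum_part5 s t D1 D2 D3 D4 D5 h (fun e => if p e then 1 else 0) v
  simp only [← deg_filter] at this
  exact_mod_cast this

lemma deg_eq_zero (s t : E → W) (D : Finset E) (v : W) (h : ∀ e ∈ D, s e ≠ v ∧ t e ≠ v) :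
    deg s t D v = 0 := by
  unfold deg
  rw [Finset.card_eq_zero, Finset.filter_eq_empty_iff]
  intro e he
  have := h e he
  tauto

lemma deg_eq_card (s t : E → W) (D : Finset E) (v : W) (h : ∀ e ∈ D, s e = v ∨ t e = v) :
    deg s t D v = D.card := by
  unfold deg
  rw [Finset.filter_true_of_mem h]

lemma dsum_eq_sum (s t : E → W) (D : Finset E) (v : W) (h : ∀ e ∈ D, s e = v ∨ t e = v)
    (g : E → ℤ) : dsum s t D g v = ∑ e ∈ D, g e := by
  rw [dsum_eq_filter, Finset.filter_true_of_mem h]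

lemma dsum_sign (s t : E → W) (D : Finset E) (z : E → ℤ) (hz : ∀ e, z e = 1 ∨ z e = -1) (v : W) :
    dsum s t D z v ≡ deg s t D v [ZMOD 2] ∧ |dsum s t D z v| ≤ deg s t D v := by
  rw [dsum_eq_filter]
  exact ⟨sum_sign_mod _ z hz, abs_sum_sign _ z hz⟩

/-- pattern on the free pendant edges -/
lemma pend [Fintype F] [DecidableEq F] (own : F → W) (ZF : Finset F) (w₀ : W) :
    ∃ pat : F → ℤ, (∀ f, -2 ≤ pat f ∧ pat f ≤ 2) ∧
      (∀ v, v ≠ w₀ → |∑ f ∈ ZFᶜ with own f = v, pat f| ≤ 2) ∧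
      (#{f ∈ ZFᶜ | own f = w₀} : ℤ) - 1 ≤ ∑ f ∈ ZFᶜ with own f = w₀, pat f ∧
      ∀ v a, 3 * #{f ∈ ZFᶜ | own f = v ∧ pat f = a} ≤ #{f ∈ ZFᶜ | own f = v} + 2 := by
  obtain ⟨κ, h1, h2, h3⟩ := equi' ZFᶜ own
  refine ⟨fun f => if own f = w₀ then κ f else 2 * κ f - 2, fun f => ?_, fun v hv => ?_, ?_,
    fun v a => ?_⟩
  · have := h1 f
    beta_reduce
    split_ifs <;> omega
  · have e1 : ∑ f ∈ ZFᶜ with own f = v, (if own f = w₀ then κ f else 2 * κ f - 2) =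
        ∑ f ∈ ZFᶜ with own f = v, (2 * κ f - 2) := by
      refine Finset.sum_congr rfl fun f hf => ?_
      rw [if_neg]
      rw [(mem_filter.1 hf).2]
      exact hv
    rw [e1, Finset.sum_sub_distrib, ← Finset.mul_sum, Finset.sum_const, nsmul_eq_mul]
    have := h2 v
    rw [abs_le] at *
    omega
  · have e1 : ∑ f ∈ ZFᶜ with own f = w₀, (if own f = w₀ then κ f else 2 * κ f - 2) =
        ∑ f ∈ ZFᶜ with own f = w₀, κ f :=
      Finset.sum_congr rfl fun f hf => if_pos (mem_filter.1 hf).2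
    rw [e1]
    have := h2 w₀
    rw [abs_le] at this
    omega
  · refine le_trans (Nat.mul_le_mul_left 3 (Finset.card_le_card ?_))
      (h3 v (if v = w₀ then a else (a + 2) / 2))
    intro f hf
    rw [mem_filter] at hf ⊢
    obtain ⟨hf1, hf2, hf3⟩ := hf
    refine ⟨hf1, hf2, ?_⟩
    beta_reduce at hf3
    rw [hf2] at hf3
    split_ifs at hf3 ⊢ <;> omega

end Pool.Agent.P.MP_0ad50f_co
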