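import Pool.Agent.P.MP_0ad50f_co.CoreB

/-! The colouring of one part from five edge classes. -/

open Finset

namespace Pool.Agent.P.MP_0ad50f_co

theorem core_mid {W E F : Type} [Fintype W] [Fintype E] [Fintype F] [DecidableEq W]
    [DecidableEq E] [DecidableEq F] (s t : E → W) (own : F → W) (bk : W → ℕ) (bs : W → ℤ)
    (Forb : W → Finset ℤ) (dd : W → ℕ) (hsim : Simple s t) (side par : W → Bool) (rank : W → ℕ)
    (hr : Function.Injective rank) (DH Z DN DK DO : Finset E) (ZF : Finset F) (oZ qZ : E → W)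
    (w₀ : W) (hw : ∀ v, dd v ≤ dd w₀)
    (hpart5 : ∀ e, (e ∈ DH ∧ e ∉ Z ∧ e ∉ DN ∧ e ∉ DK ∧ e ∉ DO) ∨
      (e ∉ DH ∧ e ∈ Z ∧ e ∉ DN ∧ e ∉ DK ∧ e ∉ DO) ∨
      (e ∉ DH ∧ e ∉ Z ∧ e ∈ DN ∧ e ∉ DK ∧ e ∉ DO) ∨
      (e ∉ DH ∧ e ∉ Z ∧ e ∉ DN ∧ e ∈ DK ∧ e ∉ DO) ∨
      (e ∉ DH ∧ e ∉ Z ∧ e ∉ DN ∧ e ∉ DK ∧ e ∈ DO))
    (hH : ∀ e ∈ DH, side (s e) = false ∧ side (t e) = true)
    (hZs : ∀ e ∈ Z, side (s e) = false ∧ side (t e) = true)
    (hZ : ∀ e ∈ Z, rank (oZ e) < rank (qZ e) ∧
      ((s e = oZ e ∧ t e = qZ e) ∨ (t e = oZ e ∧ s e = qZ e)))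
    (hN : ∀ e ∈ DN, side (s e) = side (t e) ∧ rank (t e) < rank (s e) ∧ s e ≠ w₀ ∧ t e ≠ w₀)
    (hK : ∀ e ∈ DK, side (s e) = side (t e) ∧ par (s e) = false ∧ par (t e) = true ∧
      s e ≠ w₀ ∧ t e ≠ w₀)
    (hO : ∀ e ∈ DO, s e = w₀ ∨ t e = w₀)
    (hconn : ∀ X : Finset W, X.Nonempty → X ≠ univ → 2000 ≤ cut s t DH X)
    (hcut : ∀ X : Finset W, 1000 * cut s t DN X ≤ 531 * cut s t DH X)
    (hbk : ∀ v, bk v = #{e ∈ Z | oZ e = v} + #{f ∈ ZF | own f = v})
    (hbk' : ∀ v, bk v ≤ 48000) (hZc : ∀ v, deg s t Z v ≤ 48000)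
    (hNK : ∀ v, v ≠ w₀ → deg s t DN v ≤ deg s t DK v + 1)
    (hNH : ∀ v, 2 * deg s t DN v ≤ deg s t DH v + deg s t Z v)
    (hKH : ∀ v, deg s t DN v + deg s t DK v ≤ 11 * (deg s t DH v + deg s t Z v))
    (hbs : ∀ v, |bs v| ≤ 2 * bk v) (hF : ∀ v, (Forb v).card ≤ bk v)
    (hdd : ∀ v, dd v = deg s t univ v + #{f | own f = v} + bk v)
    (hδ : ∀ v, 1000000000 ≤ dd v) :
    ∃ (x : E → ℤ) (xf : F → ℤ) (σ : W → ℤ), (∀ e, -2 ≤ x e ∧ x e ≤ 2) ∧
      (∀ f, -2 ≤ xf f ∧ xf f ≤ 2) ∧
      (∀ v, σ v = 3 * dd v + bs v + dsum s t univ x v + ∑ f with own f = v, xf f) ∧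
      (∀ v, σ v ∉ Forb v) ∧ (∀ e, σ (s e) ≠ σ (t e)) ∧
      ∀ v (a : ℤ), 2 * (deg s t {e | x e = a} v + #{f | own f = v ∧ xf f = a} + bk v) ≤ dd v := by
  have hl := hsim.1
  obtain ⟨xK, hK1, hK2, hK3⟩ := kvals s t DK (fun e he e' he' h => by
    have h1 := (hK e he).2.1
    have h2 := (hK e' he').2.2.1
    rw [h, h2] at h1
    exact absurd h1 (by decide))
  obtain ⟨κ, hO1, hO2, hO3⟩ := equi' DO (fun _ => w₀)
  obtain ⟨pat, hP1, hP2, hP3, hP4⟩ := pend own ZF w₀
  obtain ⟨base0, hb0⟩ : ∃ base0 : W → ℤ, ∀ v, base0 v = 3 * dd v + bs v + dsum s t DK xK v +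
      dsum s t DO κ v + ∑ f ∈ ZFᶜ with own f = v, pat f := ⟨_, fun _ => rfl⟩
  obtain ⟨ρ, hρ⟩ : ∃ ρ : W → ℤ, ∀ v, ρ v = (if side v then 2 else 0) + (if par v then 1 else 0) :=
    ⟨_, fun _ => rfl⟩
  obtain ⟨ε, hε0⟩ : ∃ ε : W → ℤ, ∀ v, ε v = if side v then -1 else 1 := ⟨_, fun _ => rfl⟩
  have hε : ∀ v, ε v = 1 ∨ ε v = -1 := fun v => by rw [hε0]; split_ifs <;> simp
  obtain ⟨g, hg1, hg2, hg3, hg4⟩ := hpart s t hsim DH ε hε
    (fun e he => by rw [hε0, (hH e he).1]; simp) (fun e he => by rw [hε0, (hH e he).2]; simp)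
    hconn w₀ (fun v => ρ v - base0 v -
      2 * (#{e ∈ DN | s e = v} + deg s t Z v + #{f ∈ ZF | own f = v}))
    (fun v => deg s t DN v) (by rw [sum_deg s t DN hl]; exact even_two_mul _)
  obtain ⟨z, zf, σ, hz, hzf, hσ, hForb, hDN⟩ := greedy3 rank hr s t hl DN Z
    (fun e he => by have := hpart5 e; tauto) oZ qZ ZF own hZ (fun e he => (hN e he).2.1)
    (fun v => base0 v + g v) Forb (fun v => by rw [← hbk]; exact hF v)
  obtain ⟨xH, hx1, hx2, hx3⟩ := hg4
    (fun v => ∑ e ∈ DN with s e = v, z e - ∑ e ∈ DN with t e = v, z e)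
    (fun v => by
      have h1 := (dsum_sign s t DN z hz v).1
      rw [dsum_ends s t DN hl] at h1
      unfold Int.ModEq at *
      omega)
    (fun X => by
      have h1 := head_tail_bound s t DN ε hε (fun e he => by rw [hε0, hε0, (hN e he).1]) z hz X
      have h2 := hcut X
      omega)
  obtain ⟨x, hx⟩ : ∃ x : E → ℤ, ∀ e, x e = if e ∈ DH then xH e else if e ∈ Z then 2 * z e else
      if e ∈ DN then z e else if e ∈ DK then xK e else κ e := ⟨_, fun _ => rfl⟩
  obtain ⟨xf, hxf⟩ : ∃ xf : F → ℤ, ∀ f, xf f = if f ∈ ZF then 2 * zf f else pat f :=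
    ⟨_, fun _ => rfl⟩
  have eH : ∀ e ∈ DH, x e = xH e := fun e he => by rw [hx, if_pos he]
  have eZ : ∀ e ∈ Z, x e = 2 * z e := fun e he => by
    have := hpart5 e
    rw [hx, if_neg (by tauto), if_pos he]
  have eN : ∀ e ∈ DN, x e = z e := fun e he => by
    have := hpart5 e
    rw [hx, if_neg (by tauto), if_neg (by tauto), if_pos he]
  have eK : ∀ e ∈ DK, x e = xK e := fun e he => by
    have := hpart5 e
    rw [hx, if_neg (by tauto), if_neg (by tauto), if_neg (by tauto), if_pos he]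
  have eO : ∀ e ∈ DO, x e = κ e := fun e he => by
    have := hpart5 e
    rw [hx, if_neg (by tauto), if_neg (by tauto), if_neg (by tauto), if_neg (by tauto)]
  -- degrees
  have hdeg : ∀ v, deg s t univ v = deg s t DH v + deg s t Z v + deg s t DN v + deg s t DK v +
      deg s t DO v := fun v => by
    simpa using deg_part5 s t DH Z DN DK DO hpart5 (fun _ => True) v
  have hfw : ∀ v, #{f | own f = v} = #{f ∈ ZF | own f = v} + #{f ∈ ZFᶜ | own f = v} := fun v => by
    rw [← Finset.card_union_of_disjoint (Finset.disjoint_filter_filter disjoint_compl_right),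
      ← Finset.filter_union, Finset.union_compl]
  have hO0 : ∀ v, v ≠ w₀ → deg s t DO v ≤ 1 := fun v hv => deg_at_le_one s t hsim DO w₀ v hv hO
  have hN0 : deg s t DN w₀ = 0 := deg_eq_zero s t DN w₀ fun e he => (hN e he).2.2
  have hK0 : deg s t DK w₀ = 0 := deg_eq_zero s t DK w₀ fun e he => (hK e he).2.2.2
  have hOc : deg s t DO w₀ = DO.card := deg_eq_card s t DO w₀ hO
  have hhead : ∀ v, #{e ∈ DN | s e = v} ≤ deg s t DN v := fun v =>
    Finset.card_le_card fun e he => mem_filter.2 ⟨(mem_filter.1 he).1, Or.inl (mem_filter.1 he).2⟩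
  have sN : ∀ v, |∑ e ∈ DN with s e = v, z e| ≤ deg s t DN v := fun v =>
    (abs_sum_sign _ z hz).trans (by exact_mod_cast hhead v)
  have sZ : ∀ v, |dsum s t Z z v| ≤ deg s t Z v := fun v => (dsum_sign s t Z z hz v).2
  have sF : ∀ v, |∑ f ∈ ZF with own f = v, zf f| ≤ #{f ∈ ZF | own f = v} := fun v =>
    abs_sum_sign _ zf hzf
  have hmod : ∀ v, v ≠ w₀ → σ v ≡ ρ v [ZMOD 4] := fun v hv => by
    have h1 := hg1 v hv
    have h2 := hσ v
    have h3 := sum_sign_mod (DN.filter fun e => s e = v) z hz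
    have h4 := (dsum_sign s t Z z hz v).1
    have h5 := sum_sign_mod (ZF.filter fun f => own f = v) zf hzf
    unfold Int.ModEq at *
    omega
  have hlow : 1000 * σ w₀ ≥ 3650 * (dd w₀ : ℤ) - 500000000 := by
    have h1 := hσ w₀
    have h2 := hb0 w₀
    have h3 := hO2 w₀
    simp only [Finset.filter_true_of_mem, implies_true] at h3
    rw [dsum_eq_sum s t DO w₀ hO] at h2
    have h4 := hK2 w₀
    have h5 := hbs w₀
    have h6 := sN w₀
    have h7 := sZ w₀
    have h8 := sF w₀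
    have h9 := hdd w₀
    have h10 := hdeg w₀
    have h11 := hfw w₀
    have h12 := hbk w₀
    have h13 := hbk' w₀
    have h14 := hZc w₀
    rw [abs_le] at *
    omega
  have hup : ∀ v, v ≠ w₀ → 1000 * σ v ≤ 3504 * (dd v : ℤ) + 500000000 := fun v hv => by
    have h1 := hσ v
    have h2 := hb0 v
    have h3 := abs_dsum_le s t DO κ 2 (fun e _ => by have := hO1 e; rw [abs_le]; omega) v
    have h3' := hO0 v hv
    have h4 := hK2 v
    have h5 := hbs v
    have h6 := sN v
    have h7 := sZ v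
    have h8 := sF v
    have h9 := hdd v
    have h10 := hdeg v
    have h12 := hbk v
    have h13 := hbk' v
    have h14 := hZc v
    have h15 := hP2 v hv
    have h16 := hg2 v hv
    have h17 := le_abs_self (g v)
    have h18 := hNK v hv
    have h19 := hNH v
    generalize |g v| = G at h16 h17
    rw [abs_le] at *
    omega
  have hext : ∀ v, v ≠ w₀ → σ v ≠ σ w₀ := fun v hv h => by
    have h1 := hup v hv
    have h2 := hw v
    have h3 := hδ w₀
    omega
  refine ⟨x, xf, σ, fun e => ?_, fun f => ?_, fun v => ?_, hForb, fun e => ?_, fun v a => ?_⟩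
  · rcases hpart5 e with h | h | h | h | h
    · rw [eH e h.1]; exact hx1 e
    · rw [eZ e h.2.1]; have := hz e; omega
    · rw [eN e h.2.2.1]; have := hz e; omega
    · rw [eK e h.2.2.2.1]; have := hK1 e h.2.2.2.1; omega
    · rw [eO e h.2.2.2.2]; have := hO1 e; omega
  · rw [hxf]
    have := hzf f
    have := hP1 f
    split_ifs <;> omega
  · have e1 : ∑ f with own f = v, xf f = 2 * ∑ f ∈ ZF with own f = v, zf f +
        ∑ f ∈ ZFᶜ with own f = v, pat f := by
      have a1 : ∑ f ∈ ZF with own f = v, 2 * zf f = ∑ f ∈ ZF with own f = v, xf f :=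
        Finset.sum_congr rfl fun f hf => by rw [hxf, if_pos (mem_filter.1 hf).1]
      have a2 : ∑ f ∈ ZFᶜ with own f = v, pat f = ∑ f ∈ ZFᶜ with own f = v, xf f :=
        Finset.sum_congr rfl fun f hf => by rw [hxf, if_neg (mem_compl.1 (mem_filter.1 hf).1)]
      have a3 : Disjoint ZF ZFᶜ := disjoint_compl_right
      rw [Finset.mul_sum, a1, a2, ← Finset.sum_union (Finset.disjoint_filter_filter a3),
        ← Finset.filter_union, Finset.union_compl]
    rw [e1, dsum_part5 s t DH Z DN DK DO hpart5, dsum_congr s t DH x xH eH,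
      dsum_congr s t Z x _ eZ, dsum_congr s t DN x z eN, dsum_congr s t DK x xK eK,
      dsum_congr s t DO x κ eO, dsum_mul, hx2, dsum_ends s t DN hl, hσ, hb0]
    ring
  · by_cases h1 : s e = w₀
    · have h2 : t e ≠ w₀ := fun h => hl e (h1.trans h.symm)
      rw [h1]; exact (hext _ h2).symm
    by_cases h2 : t e = w₀
    · rw [h2]; exact hext _ h1
    have m1 := hmod _ h1
    have m2 := hmod _ h2
    rw [hρ] at m1 m2
    unfold Int.ModEq at m1 m2
    rcases hpart5 e with h | h | h | h | h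
    · obtain ⟨a1, a2⟩ := hH e h.1
      simp only [a1, a2, if_true, Bool.false_eq_true, if_false] at m1 m2
      split_ifs at m1 m2 <;> omega
    · obtain ⟨a1, a2⟩ := hZs e h.2.1
      simp only [a1, a2, if_true, Bool.false_eq_true, if_false] at m1 m2
      split_ifs at m1 m2 <;> omega
    · exact hDN e h.2.2.1
    · obtain ⟨a1, a2, a3, -⟩ := hK e h.2.2.2.1
      simp only [a1, a2, a3, if_true, Bool.false_eq_true, if_false] at m1 m2
      split_ifs at m1 m2 <;> omega
    · have := hO e h.2.2.2.2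
      tauto
  · have fc : ∀ (D : Finset E) (y : E → ℤ), (∀ e ∈ D, x e = y e) →
        (D.filter fun e => x e = a) = D.filter fun e => y e = a :=
      fun D y h => Finset.filter_congr fun e he => by rw [h e he]
    have c0 := deg_part5 s t DH Z DN DK DO hpart5 (fun e => x e = a) v
    rw [fc DH xH eH, fc DN z eN, fc DK xK eK, fc DO κ eO] at c0
    have c1 := hx3 v a
    have c2 : deg s t (Z.filter fun e => x e = a) v ≤ deg s t Z v :=
      deg_mono s t (Finset.filter_subset _ _) v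
    have c3 : deg s t (DN.filter fun e => z e = a) v ≤ deg s t DN v :=
      deg_mono s t (Finset.filter_subset _ _) v
    have c3' : ¬ (a = 1 ∨ a = -1) → deg s t (DN.filter fun e => z e = a) v = 0 := fun h =>
      deg_eq_zero _ _ _ _ fun e he => by
        have h1 := (mem_filter.1 he).2
        have h2 := hz e
        omega
    have c4 := hK3 v a
    have c4' : (a = 1 ∨ a = -1) → deg s t (DK.filter fun e => xK e = a) v = 0 := fun h =>
      deg_eq_zero _ _ _ _ fun e he => by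
        have h1 := (mem_filter.1 he).2
        have h2 := hK1 e (mem_filter.1 he).1
        omega
    have c5 : deg s t (DO.filter fun e => κ e = a) v ≤ deg s t DO v :=
      deg_mono s t (Finset.filter_subset _ _) v
    have c5' : 3 * deg s t (DO.filter fun e => κ e = a) v ≤ DO.card + 2 := by
      have h1 := hO3 w₀ a
      simp only [true_and, Finset.filter_true_of_mem, implies_true] at h1
      have h2 := deg_le_card s t (DO.filter fun e => κ e = a) v
      omega
    have c6 : #{f | own f = v ∧ xf f = a} ≤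
        #{f ∈ ZF | own f = v} + #{f ∈ ZFᶜ | own f = v ∧ pat f = a} := by
      refine le_trans (Finset.card_le_card ?_) (Finset.card_union_le _ _)
      intro f hf
      obtain ⟨h1, h2⟩ := (mem_filter.1 hf).2
      by_cases h3 : f ∈ ZF
      · exact mem_union_left _ (mem_filter.2 ⟨h3, h1⟩)
      · rw [hxf, if_neg h3] at h2
        exact mem_union_right _ (mem_filter.2 ⟨mem_compl.2 h3, h1, h2⟩)
    have c7 := hP4 v a
    have h9 := hdd v
    have h10 := hdeg v
    have h11 := hfw v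
    have h12 := hbk v
    have h13 := hbk' v
    have h14 := hZc v
    have h15 := hδ v
    have h16 := hKH v
    by_cases hv : v = w₀
    · subst hv
      split_ifs at c1 <;> omega
    · have h17 := hNK v hv
      have h18 := hO0 v hv
      by_cases ha : a = 1 ∨ a = -1
      · rw [if_pos ha] at c1
        have := c4' ha
        omega
      · rw [if_neg ha] at c1
        have := c3' ha
        omega

end Pool.Agent.P.MP_0ad50f_co
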