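import Pool.Agent.P.MP_0ad50f_co.Core

/-! Induction over highly edge-connected parts. -/

open Finset

namespace Pool.Agent.P.MP_0ad50f_co

section

variable {V E : Type} [Fintype E] [DecidableEq V]

lemma decomp_cut (s t : E → V) {X Y U : Finset V} (hX : X ⊆ Y) (hY : Y ⊆ U) :
    cut s t {e | s e ∈ U ∧ t e ∈ U} X + cut s t {e | s e ∈ U ∧ t e ∈ U} (Y \ X) ≤
      cut s t {e | s e ∈ U ∧ t e ∈ U} Y + 2 * cut s t {e | s e ∈ Y ∧ t e ∈ Y} X := by
  simp only [cut, filter_filter, card_filter, mul_sum, ← sum_add_distrib]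
  refine sum_le_sum fun e _ => ?_
  have h1 := @hX (s e)
  have h2 := @hX (t e)
  have h3 := @hY (s e)
  have h4 := @hY (t e)
  simp only [mem_sdiff]
  by_cases a1 : s e ∈ X <;> by_cases a2 : t e ∈ X <;> by_cases a3 : s e ∈ Y <;>
    by_cases a4 : t e ∈ Y <;> by_cases a5 : s e ∈ U <;> by_cases a6 : t e ∈ U <;> simp_all

lemma decomp_part (s t : E → V) {U : Finset V} (hU : U.Nonempty) : ∃ Y, Y ⊆ U ∧ Y.Nonempty ∧
    cut s t {e | s e ∈ U ∧ t e ∈ U} Y ≤ 47998 ∧
    ∀ X, X ⊆ Y → X.Nonempty → X ≠ Y → 24000 ≤ cut s t {e | s e ∈ Y ∧ t e ∈ Y} X := by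
  obtain ⟨Y, hY, hmin⟩ := exists_min_image
    (U.powerset.filter fun Y => Y.Nonempty ∧ cut s t {e | s e ∈ U ∧ t e ∈ U} Y ≤ 47998) card
    ⟨U, by
      refine mem_filter.2 ⟨mem_powerset_self U, hU, ?_⟩
      have : cut s t {e | s e ∈ U ∧ t e ∈ U} U = 0 := by
        rw [cut, card_eq_zero, filter_eq_empty_iff]
        intro e he
        have := (mem_filter.1 he).2
        simp [this.1, this.2]
      omega⟩
  obtain ⟨h1, h2, h3⟩ := mem_filter.1 hY
  rw [mem_powerset] at h1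
  refine ⟨Y, h1, h2, h3, fun X hX hne hXY => ?_⟩
  by_contra hlt
  have hc := decomp_cut s t hX h1
  have hss : X ⊂ Y := Finset.ssubset_iff_subset_ne.2 ⟨hX, hXY⟩
  by_cases h : cut s t {e | s e ∈ U ∧ t e ∈ U} X ≤ 47998
  · have := hmin X (mem_filter.2 ⟨mem_powerset.2 (hX.trans h1), hne, h⟩)
    have := card_lt_card hss
    omega
  · have := hmin (Y \ X) (mem_filter.2 ⟨mem_powerset.2 (sdiff_subset.trans h1),
      sdiff_nonempty.2 hss.2, by omega⟩)
    have := card_lt_card (sdiff_ssubset hX hne)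
    omega

lemma decomp_sub {R : Type} [AddCommMonoid R] (s t : E → V) (p : E → Prop) [DecidablePred p]
    (g : E → R) (v : V) (q : Subtype p → Prop) [DecidablePred q]
    (h : ∀ e : Subtype p, q e ↔ s e = v ∨ t e = v) :
    dsum s t {e | p e} g v = ∑ e with q e, g e := by
  rw [dsum, Finset.sum_subtype (p := p) _ (by simp), sum_filter]
  exact sum_congr rfl fun e _ => by simp only [h]

lemma decomp_split {R : Type} [AddCommMonoid R] (s t : E → V) {Y U : Finset V} (hY : Y ⊆ U)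
    (g : E → R) {v : V} (hv : v ∈ Y) : dsum s t univ g v =
      dsum s t {e | s e ∈ Y ∧ t e ∈ Y} g v +
      dsum s t {e | (s e ∈ Y ∧ t e ∉ U) ∨ (t e ∈ Y ∧ s e ∉ U)} g v +
      dsum s t {e | s e ∈ U \ Y ∨ t e ∈ U \ Y} g v := by
  simp only [dsum, sum_filter, ← sum_add_distrib]
  refine sum_congr rfl fun e _ => ?_
  have h3 := @hY (s e)
  have h4 := @hY (t e)
  simp only [mem_sdiff]
  by_cases a0 : s e = v ∨ t e = v
  · have a1 : s e ∈ Y ∨ t e ∈ Y := a0.imp (fun h => by rwa [h]) fun h => by rwa [h]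
    by_cases a3 : s e ∈ Y <;> by_cases a4 : t e ∈ Y <;> by_cases a5 : s e ∈ U <;>
      by_cases a6 : t e ∈ U <;> simp_all
  · simp [a0]

lemma decomp_same {R : Type} [AddCommMonoid R] (s t : E → V) (g g' : E → R) (v : V)
    (h : ∀ e, s e = v ∨ t e = v → g e = g' e) : dsum s t univ g v = dsum s t univ g' v := by
  simp only [dsum_eq_filter]
  exact sum_congr rfl fun e he => h e (mem_filter.1 he).2

lemma decomp_deg (s t : E → V) (p : E → Prop) [DecidablePred p] (v : V) :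
    deg s t {e | p e} v = dsum s t univ (fun e => if p e then 1 else 0) v := by
  rw [dsum_eq_filter, deg, filter_comm, card_filter]

lemma decomp_back (s t : E → V) {Y U : Finset V} (hY : Y ⊆ U) :
    ∑ w : {v // v ∈ Y}, deg s t {e | s e ∈ U \ Y ∨ t e ∈ U \ Y} w ≤
      cut s t {e | s e ∈ U ∧ t e ∈ U} Y := by
  classical
  unfold deg cut
  rw [← card_biUnion]
  · refine card_le_card fun e he => ?_
    obtain ⟨w, -, hw⟩ := mem_biUnion.1 he
    have h1 := w.2
    have h2 := hY h1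
    simp only [mem_filter, mem_univ, true_and, mem_sdiff] at hw ⊢
    obtain ⟨a | a, b | b⟩ := hw <;> simp_all
  · intro w _ w' _ hne
    refine disjoint_left.2 fun e he he' => hne (Subtype.ext ?_)
    have h1 := w.2
    have h2 := w'.2
    simp only [mem_filter, mem_univ, true_and, mem_sdiff] at he he'
    obtain ⟨a | a, b | b⟩ := he <;> obtain ⟨-, c | c⟩ := he' <;> simp_all

end

/-- TASK Decomp -/
theorem multi : ∃ δ₀ : ℕ, ∀ (V E : Type) [Fintype V] [Fintype E] [DecidableEq V] [DecidableEq E]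
    (s t : E → V), Simple s t → (∀ v, δ₀ ≤ deg s t univ v) →
    ∃ x : E → ℤ, (∀ e, -2 ≤ x e ∧ x e ≤ 2) ∧
      (∀ e, 3 * (deg s t univ (s e) : ℤ) + dsum s t univ x (s e) ≠
        3 * (deg s t univ (t e) : ℤ) + dsum s t univ x (t e)) ∧
      ∀ v (a : ℤ), 2 * deg s t {e | x e = a} v ≤ deg s t univ v := by
  obtain ⟨δ₀, hcore⟩ := core
  refine ⟨δ₀, fun V E _ _ _ _ s t hS hδ => ?_⟩
  have key : ∀ U : Finset V, ∃ x : E → ℤ, (∀ e, -2 ≤ x e ∧ x e ≤ 2) ∧
      (∀ e, s e ∈ U → t e ∈ U → 3 * (deg s t univ (s e) : ℤ) + dsum s t univ x (s e) ≠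
        3 * (deg s t univ (t e) : ℤ) + dsum s t univ x (t e)) ∧
      ∀ v ∈ U, ∀ a : ℤ, 2 * deg s t {e | x e = a} v ≤ deg s t univ v := by
    intro U
    induction U using Finset.strongInductionOn with
    | _ U ih =>
    rcases U.eq_empty_or_nonempty with rfl | hU
    · exact ⟨0, fun e => by simp, fun e he => by simp at he, fun v hv => by simp at hv⟩
    obtain ⟨Y, hY, hne, hcut, hconn⟩ := decomp_part s t hU
    obtain ⟨x', b1, b2, b3⟩ := ih (U \ Y) (sdiff_ssubset hY hne)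
    obtain ⟨s', hs'⟩ : ∃ s' : {e // s e ∈ Y ∧ t e ∈ Y} → {v // v ∈ Y}, ∀ e, (s' e).1 = s e :=
      ⟨fun e => ⟨s e, e.2.1⟩, fun _ => rfl⟩
    obtain ⟨t', ht'⟩ : ∃ t' : {e // s e ∈ Y ∧ t e ∈ Y} → {v // v ∈ Y}, ∀ e, (t' e).1 = t e :=
      ⟨fun e => ⟨t e, e.2.2⟩, fun _ => rfl⟩
    obtain ⟨own, hown⟩ : ∃ own : {e // (s e ∈ Y ∧ t e ∉ U) ∨ (t e ∈ Y ∧ s e ∉ U)} → {v // v ∈ Y},
        ∀ f w, own f = w ↔ s f = w ∨ t f = w := by
      refine ⟨fun f => if h : s f ∈ Y then ⟨s f, h⟩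
        else ⟨t f, (f.2.resolve_left fun h' => h h'.1).1⟩, fun f w => ?_⟩
      have h1 := w.2
      have h2 := hY h1
      have h3 := f.2
      by_cases h : s f ∈ Y
      · simp only [dif_pos h, Subtype.ext_iff]
        refine ⟨Or.inl, fun h' => h'.resolve_right fun h4 => ?_⟩
        rcases h3 with h3 | h3
        · exact h3.2 (h4 ▸ h2)
        · exact h3.2 (hY h)
      · simp only [dif_neg h, Subtype.ext_iff]
        exact ⟨Or.inr, fun h' => h'.resolve_left fun h4 => h (h4 ▸ h1)⟩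
    have hE : ∀ (e : {e // s e ∈ Y ∧ t e ∈ Y}) (w : {v // v ∈ Y}),
        (s' e = w ∨ t' e = w) ↔ (s e = w ∨ t e = w) := fun e w => by
      simp only [Subtype.ext_iff, hs', ht']
    have hsplit : ∀ {R : Type} [AddCommMonoid R] (g : E → R) (w : {v // v ∈ Y}),
        dsum s t univ g w = dsum s' t' univ (fun e => g e) w + ∑ f with own f = w, g f +
          dsum s t {e | s e ∈ U \ Y ∨ t e ∈ U \ Y} g w := by
      intro R _ g w
      rw [decomp_split s t hY g w.2, decomp_sub s t _ g w (fun e => s' e = w ∨ t' e = w)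
        (fun e => hE e w), decomp_sub s t _ g w (fun f => own f = w) (fun f => hown f w),
        dsum_eq_filter s' t']
    obtain ⟨xE, xF, σ, c1, c2, c3, c4, c5, c6⟩ := hcore {v // v ∈ Y} {e // s e ∈ Y ∧ t e ∈ Y}
      {e // (s e ∈ Y ∧ t e ∉ U) ∨ (t e ∈ Y ∧ s e ∉ U)} s' t' own
      (fun w => deg s t {e | s e ∈ U \ Y ∨ t e ∈ U \ Y} w)
      (fun w => dsum s t {e | s e ∈ U \ Y ∨ t e ∈ U \ Y} x' w)
      (fun w => (({e | s e ∈ U \ Y ∨ t e ∈ U \ Y} : Finset E).filter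
        fun e => s e = w ∨ t e = w).image fun e =>
          3 * (deg s t univ (if s e ∈ Y then t e else s e) : ℤ) +
            dsum s t univ x' (if s e ∈ Y then t e else s e))
      (fun w => deg s t univ w) hne.to_subtype
      ⟨fun e h => hS.1 e (by rw [← hs', ← ht', h]), fun e e' h => Subtype.ext (hS.2 _ _ (by
        have := congrArg (Sym2.map Subtype.val) h
        simpa only [Sym2.map_mk, hs', ht'] using this))⟩
      (fun X hX hXu => by
        refine (hconn (X.map (Function.Embedding.subtype _)) (fun v hv => ?_) hX.map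
          fun h => hXu (eq_univ_of_forall fun w => ?_)).trans ?_
        · obtain ⟨w, -, rfl⟩ := mem_map.1 hv
          exact w.2
        · have : w.1 ∈ X.map (Function.Embedding.subtype _) := h.symm ▸ w.2
          exact (mem_map' (Function.Embedding.subtype _)).1 this
        · refine card_le_card_of_surjOn Subtype.val fun e he => ?_
          obtain ⟨h1, h2⟩ := mem_filter.1 (mem_coe.1 he)
          refine ⟨⟨e, (mem_filter.1 h1).2⟩, mem_coe.2 (mem_filter.2 ⟨mem_univ _, ?_⟩), rfl⟩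
          rw [← mem_map' (Function.Embedding.subtype _), ← mem_map' (Function.Embedding.subtype _)
            (a := t' _)]
          simpa only [Function.Embedding.subtype_apply, hs', ht'] using h2)
      ((decomp_back s t hY).trans (by omega))
      (fun w => abs_dsum_le s t _ x' 2 (fun e _ => abs_le.2 (b1 e)) w)
      (fun w => card_image_le)
      (fun w => by
        have := hsplit (fun _ => (1 : ℕ)) w
        simpa only [dsum_const, Nat.cast_id, mul_one, sum_const, smul_eq_mul] using this)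
      (fun w => hδ w)
    obtain ⟨x, x1, x2, x3⟩ : ∃ x : E → ℤ, (∀ e : {e // s e ∈ Y ∧ t e ∈ Y}, x e = xE e) ∧
        (∀ f : {e // (s e ∈ Y ∧ t e ∉ U) ∨ (t e ∈ Y ∧ s e ∉ U)}, x f = xF f) ∧
        ∀ e, ¬ (s e ∈ Y ∧ t e ∈ Y) → ¬ ((s e ∈ Y ∧ t e ∉ U) ∨ (t e ∈ Y ∧ s e ∉ U)) →
          x e = x' e := by
      refine ⟨fun e => if h : s e ∈ Y ∧ t e ∈ Y then xE ⟨e, h⟩
        else if h : (s e ∈ Y ∧ t e ∉ U) ∨ (t e ∈ Y ∧ s e ∉ U) then xF ⟨e, h⟩ else x' e,
        fun e => dif_pos e.2, fun f => ?_, fun e h h' => by simp only [dif_neg h, dif_neg h']⟩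
      have h : ¬ (s f ∈ Y ∧ t f ∈ Y) := fun h =>
        f.2.elim (fun h' => h'.2 (hY h.2)) fun h' => h'.2 (hY h.1)
      simp only [dif_neg h, dif_pos f.2]
    have xB : ∀ e, s e ∈ U \ Y ∨ t e ∈ U \ Y → x e = x' e := by
      intro e he
      simp only [mem_sdiff] at he
      exact x3 e (by tauto) (by tauto)
    have xU : ∀ v ∈ U \ Y, ∀ e, s e = v ∨ t e = v → x e = x' e := fun v hv e he =>
      xB e (he.imp (fun h => by rwa [h]) fun h => by rwa [h])
    have sU : ∀ v ∈ U \ Y, dsum s t univ x v = dsum s t univ x' v := fun v hv =>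
      decomp_same s t x x' v (xU v hv)
    have sY : ∀ w : {v // v ∈ Y}, 3 * (deg s t univ w.1 : ℤ) + dsum s t univ x w = σ w := by
      intro w
      rw [c3, hsplit x w, dsum_congr s t _ x x' fun e he => xB e (mem_filter.1 he).2]
      simp only [x1, x2]
      ring
    refine ⟨x, fun e => ?_, fun e h1 h2 => ?_, fun v hv a => ?_⟩
    · by_cases h : s e ∈ Y ∧ t e ∈ Y
      · exact x1 ⟨e, h⟩ ▸ c1 ⟨e, h⟩
      by_cases h' : (s e ∈ Y ∧ t e ∉ U) ∨ (t e ∈ Y ∧ s e ∉ U)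
      · exact x2 ⟨e, h'⟩ ▸ c2 ⟨e, h'⟩
      · exact x3 e h h' ▸ b1 e
    · by_cases a1 : s e ∈ Y <;> by_cases a2 : t e ∈ Y
      · have := c5 ⟨e, a1, a2⟩
        rwa [← sY, ← sY, hs', ht'] at this
      · have h3 := mem_sdiff.2 ⟨h2, a2⟩
        rw [sY ⟨s e, a1⟩, sU _ h3]
        refine fun h => c4 ⟨s e, a1⟩ (mem_image.2 ⟨e, mem_filter.2 ⟨mem_filter.2
          ⟨mem_univ _, Or.inr h3⟩, Or.inl rfl⟩, ?_⟩)
        rw [if_pos a1, h]
      · have h3 := mem_sdiff.2 ⟨h1, a1⟩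
        rw [sY ⟨t e, a2⟩, sU _ h3]
        refine fun h => c4 ⟨t e, a2⟩ (mem_image.2 ⟨e, mem_filter.2 ⟨mem_filter.2
          ⟨mem_univ _, Or.inl h3⟩, Or.inr rfl⟩, ?_⟩)
        rw [if_neg a1, h]
      · rw [sU _ (mem_sdiff.2 ⟨h1, a1⟩), sU _ (mem_sdiff.2 ⟨h2, a2⟩)]
        exact b2 e (mem_sdiff.2 ⟨h1, a1⟩) (mem_sdiff.2 ⟨h2, a2⟩)
    · by_cases h : v ∈ Y
      · refine le_trans (Nat.mul_le_mul_left 2 ?_) (c6 ⟨v, h⟩ a)
        rw [decomp_deg, decomp_deg s' t', hsplit _ ⟨v, h⟩]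
        simp only [x1, x2]
        refine add_le_add (add_le_add le_rfl (le_of_eq ?_)) ?_
        · rw [← card_filter, filter_filter]
        · rw [dsum_eq_filter, ← card_filter]
          exact card_filter_le _ _
      · have h3 := mem_sdiff.2 ⟨hv, h⟩
        refine le_trans (le_of_eq ?_) (b3 v h3 a)
        rw [decomp_deg, decomp_deg, decomp_same s t _ _ v fun e he => by rw [xU v h3 e he]]
  obtain ⟨x, h1, h2, h3⟩ := key univ
  exact ⟨x, h1, fun e => h2 e (mem_univ _) (mem_univ _), fun v => h3 v (mem_univ _)⟩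

end Pool.Agent.P.MP_0ad50f_co
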