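import Pool.Agent.P.MP_0ad50f_co.Decomp

/-! Transfer to simple graphs. -/

open Finset

namespace Pool.Agent.P.MP_0ad50f_co

section aux

variable {V : Type} [Fintype V] [DecidableEq V] (G : SimpleGraph V) [DecidableRel G.Adj]

/-- first end of an edge -/
noncomputable def mainS (e : G.edgeFinset) : V := e.1.out.1

/-- second end of an edge -/
noncomputable def mainT (e : G.edgeFinset) : V := e.1.out.2

omit [DecidableEq V] in
lemma main_mk (e : G.edgeFinset) : s(mainS G e, mainT G e) = e.1 := e.1.out_eq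

omit [DecidableEq V] in
lemma main_adj (e : G.edgeFinset) : G.Adj (mainS G e) (mainT G e) := by
  rw [← SimpleGraph.mem_edgeSet, main_mk, ← SimpleGraph.mem_edgeFinset]
  exact e.2

omit [DecidableEq V] in
lemma main_mem (e : G.edgeFinset) (v : V) : (mainS G e = v ∨ mainT G e = v) ↔ v ∈ e.1 := by
  rw [← main_mk, Sym2.mem_iff, eq_comm, eq_comm (a := v) (b := mainT G e)]

lemma main_dsum (g : Sym2 V → ℤ) (v : V) :
    dsum (mainS G) (mainT G) univ (fun e => g e.1) v = ∑ w ∈ G.neighborFinset v, g s(v, w) := by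
  unfold dsum
  simp only [main_mem]
  rw [Finset.sum_coe_sort G.edgeFinset (fun e => if v ∈ e then g e else 0), ← Finset.sum_filter]
  symm
  refine Finset.sum_bij (fun w _ => s(v, w)) (fun w hw => ?_) (fun w _ w' _ h => ?_)
    (fun e he => ?_) fun _ _ => rfl
  · simpa using hw
  · exact Sym2.congr_right.1 h
  · obtain ⟨h1, h2⟩ := mem_filter.1 he
    obtain ⟨w, rfl⟩ := Sym2.mem_iff_exists.1 h2
    exact ⟨w, by simpa using h1, rfl⟩

lemma main_deg (v : V) : deg (mainS G) (mainT G) univ v = G.degree v := by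
  have := main_dsum G (fun _ => 1) v
  rw [← deg_eq_dsum] at this
  simpa using this

end aux

/-- TASK Main -/
theorem main : ∃ δ₀ : ℕ, ∀ (V : Type) [Fintype V] [DecidableEq V] (G : SimpleGraph V)
    [DecidableRel G.Adj], (∀ v, δ₀ ≤ G.degree v) →
    ∃ c : Sym2 V → ℕ, (∀ e ∈ G.edgeSet, 1 ≤ c e ∧ c e ≤ 5) ∧
      (∀ u v, G.Adj u v →
        ∑ w ∈ G.neighborFinset u, c s(u, w) ≠ ∑ w ∈ G.neighborFinset v, c s(v, w)) ∧
      ∀ v a, 2 * ((G.neighborFinset v).filter fun w => c s(v, w) = a).card ≤ G.degree v := by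
  obtain ⟨δ₀, h⟩ := multi
  refine ⟨δ₀, fun V _ _ G _ hd => ?_⟩
  obtain ⟨x, h1, h2, h3⟩ := h V G.edgeFinset (mainS G) (mainT G)
    ⟨fun e => (main_adj G e).ne, fun e e' he => Subtype.ext (by rwa [main_mk, main_mk] at he)⟩
    fun v => by rw [main_deg]; exact hd v
  set c : Sym2 V → ℕ := fun e => if he : e ∈ G.edgeFinset then (x ⟨e, he⟩ + 3).toNat else 0
    with hc
  have hx : ∀ e : G.edgeFinset, (c e.1 : ℤ) = 3 + x e := fun e => by
    have := h1 e
    have h0 : c e.1 = (x e + 3).toNat := dif_pos e.2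
    omega
  have hs : ∀ v, ((∑ w ∈ G.neighborFinset v, c s(v, w) : ℕ) : ℤ) =
      3 * (deg (mainS G) (mainT G) univ v : ℤ) + dsum (mainS G) (mainT G) univ x v := fun v => by
    rw [Nat.cast_sum, ← main_dsum G (fun e => (c e : ℤ)) v]
    simp only [hx]
    rw [dsum_add, dsum_const, mul_comm]
  refine ⟨c, fun e he => ?_, fun u v huv he => ?_, fun v a => ?_⟩
  · have := hx ⟨e, SimpleGraph.mem_edgeFinset.2 he⟩
    have := h1 ⟨e, SimpleGraph.mem_edgeFinset.2 he⟩
    simp only at *
    omega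
  · have h4 := h2 ⟨s(u, v), SimpleGraph.mem_edgeFinset.2 huv⟩
    rw [← hs, ← hs] at h4
    rcases Sym2.eq_iff.1 (main_mk G ⟨s(u, v), SimpleGraph.mem_edgeFinset.2 huv⟩) with h5 | h5
    · rw [h5.1, h5.2, he] at h4; exact h4 rfl
    · rw [h5.1, h5.2, he] at h4; exact h4 rfl
  · have h4 := h3 v (a - 3)
    have h5 := main_dsum G (fun e => if c e = a then 1 else 0) v
    have h6 : (deg (mainS G) (mainT G) {e | x e = a - 3} v : ℤ) =
        dsum (mainS G) (mainT G) univ (fun e => if c e.1 = a then 1 else 0) v := by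
      rw [deg_eq_dsum]
      unfold dsum
      rw [Finset.sum_filter]
      refine Finset.sum_congr rfl fun e _ => ?_
      have h7 : x e = a - 3 ↔ c e.1 = a := by have := hx e; omega
      by_cases h8 : c e.1 = a <;> simp [h7, h8]
    rw [← h6, Finset.sum_boole] at h5
    rw [main_deg] at h4
    omega

end Pool.Agent.P.MP_0ad50f_co
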