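import Pool.Agent.P.MP_0ad50f_co.Basic
import Pool.Agent.P.MP_da739a_co.Hoffman

/-! Simultaneous rounding on a bipartite multigraph with edge classes. -/

open Finset

namespace Pool.Agent.P.MP_0ad50f_co

open Pool.Agent.P.MP_da739a_co

lemma round_circ {V A : Type} [Fintype V] [Fintype A] [DecidableEq V] (src tgt : A → V)
    (F : A → ℝ)
    (hF : ∀ v, ∑ a, ((if src a = v then F a else 0) - (if tgt a = v then F a else 0)) = 0) :
    ∃ z : A → ℤ, (∀ a, ⌊F a⌋ ≤ z a ∧ z a ≤ ⌈F a⌉) ∧
      ∀ v, ∑ a, ((if src a = v then z a else 0) - (if tgt a = v then z a else 0)) = 0 := by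
  refine hoffman' src tgt (fun _ => 0) (by simp) (fun a => ⌊F a⌋) (fun a => ⌈F a⌉)
    (fun a => Int.floor_le_ceil _) fun X => ?_
  have h0 : ∑ a, ((if src a ∈ X then F a else 0) - (if tgt a ∈ X then F a else 0)) = 0 := by
    have : ∑ v ∈ X, ∑ a, ((if src a = v then F a else 0) - (if tgt a = v then F a else 0)) = 0 :=
      Finset.sum_eq_zero fun v _ => hF v
    rw [Finset.sum_comm] at this
    refine Eq.trans (Finset.sum_congr rfl fun e _ => ?_) this
    rw [Finset.sum_sub_distrib, Finset.sum_ite_eq, Finset.sum_ite_eq]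
  have h1 : (0 : ℝ) ≤ ((capOut src tgt (fun a => ⌊F a⌋) (fun a => ⌈F a⌉) X : ℤ) : ℝ) := by
    rw [← h0]
    unfold capOut
    push_cast
    refine Finset.sum_le_sum fun a _ => ?_
    have := Int.floor_le (F a)
    have := Int.le_ceil (F a)
    by_cases a1 : src a ∈ X <;> by_cases a2 : tgt a ∈ X <;> simp [*]
  simp only [Finset.sum_const_zero]
  exact_mod_cast h1

section net

variable {W E C R : Type} [Fintype W] [Fintype E] [Fintype C] [DecidableEq W] [DecidableEq C]
  [AddCommGroup R] (s t : E → W) (cl : E → C)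

/-- net outflow of a class at a vertex -/
def net (g : E → R) (p : W × C) : R :=
  ∑ e, ((if (s e, cl e) = p then g e else 0) - (if (t e, cl e) = p then g e else 0))

/-- tails of the arcs of the network -/
def nsrc : E ⊕ (W × C) ⊕ W → Option (W ⊕ W × C)
  | .inl e => some (.inr (s e, cl e))
  | .inr (.inl p) => some (.inl p.1)
  | .inr (.inr _) => none

/-- heads of the arcs of the network -/
def ntgt : E ⊕ (W × C) ⊕ W → Option (W ⊕ W × C)
  | .inl e => some (.inr (t e, cl e))
  | .inr (.inl p) => some (.inr p)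
  | .inr (.inr v) => some (.inl v)

lemma bd_class (z : E ⊕ (W × C) ⊕ W → R) (p : W × C) :
    ∑ a, ((if nsrc s cl a = some (.inr p) then z a else 0) -
      (if ntgt t cl a = some (.inr p) then z a else 0)) =
      net s t cl (fun e => z (.inl e)) p - z (.inr (.inl p)) := by
  simp [Fintype.sum_sum_type, nsrc, ntgt, net, sub_eq_add_neg]

lemma bd_vertex (z : E ⊕ (W × C) ⊕ W → R) (v : W) :
    ∑ a, ((if nsrc s cl a = some (.inl v) then z a else 0) -
      (if ntgt t cl a = some (.inl v) then z a else 0)) =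
      ∑ c, z (.inr (.inl (v, c))) - z (.inr (.inr v)) := by
  simp [Fintype.sum_sum_type, nsrc, ntgt, Fintype.sum_prod_type, sub_eq_add_neg]
  rw [Finset.sum_comm]
  simp

omit [DecidableEq W] [DecidableEq C] in
lemma bd_none (z : E ⊕ (W × C) ⊕ W → R) :
    ∑ a, ((if nsrc s cl a = none then z a else 0) - (if ntgt t cl a = none then z a else 0)) =
      ∑ v, z (.inr (.inr v)) := by
  simp [Fintype.sum_sum_type, nsrc, ntgt]

lemma sum_net (g : E → R) : ∑ v, ∑ c, net s t cl g (v, c) = 0 := by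
  rw [← Fintype.sum_prod_type]
  unfold net
  rw [Finset.sum_comm]
  exact Finset.sum_eq_zero fun e _ => by simp

omit [Fintype W] in
lemma net_dsum [DecidableEq E] (D : Finset E) (g : E → R) (hg : ∀ e, e ∉ D → g e = 0) (v : W) :
    ((∀ e ∈ D, t e ≠ v) → (∀ c, net s t cl g (v, c) = dsum s t {e ∈ D | cl e = c} g v) ∧
      ∑ c, net s t cl g (v, c) = dsum s t D g v) ∧
    ((∀ e ∈ D, s e ≠ v) → (∀ c, net s t cl g (v, c) = -dsum s t {e ∈ D | cl e = c} g v) ∧
      ∑ c, net s t cl g (v, c) = -dsum s t D g v) := by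
  have hs : ∑ c, dsum s t {e ∈ D | cl e = c} g v = dsum s t D g v := by
    unfold dsum
    exact Finset.sum_fiberwise D cl _
  have hd : ∀ c, dsum s t {e ∈ D | cl e = c} g v =
      ∑ e, if e ∈ D then (if cl e = c then (if s e = v ∨ t e = v then g e else 0) else 0)
        else 0 := by
    intro c
    unfold dsum
    rw [Finset.sum_filter, Finset.sum_ite_mem, univ_inter]
  constructor
  · intro h
    have k : ∀ c, net s t cl g (v, c) = dsum s t {e ∈ D | cl e = c} g v := by
      intro c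
      rw [hd]
      refine Finset.sum_congr rfl fun e _ => ?_
      by_cases he : e ∈ D
      · have := h e he
        by_cases a1 : s e = v <;> by_cases a2 : cl e = c <;> simp [*]
      · simp [he, hg e he]
    exact ⟨k, by simp only [k, hs]⟩
  · intro h
    have k : ∀ c, net s t cl g (v, c) = -dsum s t {e ∈ D | cl e = c} g v := by
      intro c
      rw [hd, ← Finset.sum_neg_distrib]
      refine Finset.sum_congr rfl fun e _ => ?_
      by_cases he : e ∈ D
      · have := h e he
        by_cases a1 : t e = v <;> by_cases a2 : cl e = c <;> simp [*]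
      · simp [he, hg e he]
    exact ⟨k, by simp only [k, Finset.sum_neg_distrib, hs]⟩

end net

lemma near_of_round {x : ℝ} {z : ℤ} (h : ⌊x⌋ ≤ z ∧ z ≤ ⌈x⌉) : |(z : ℝ) - x| ≤ 1 := by
  have h1 : ((⌊x⌋ : ℤ) : ℝ) ≤ z := by exact_mod_cast h.1
  have h2 : (z : ℝ) ≤ ((⌈x⌉ : ℤ) : ℝ) := by exact_mod_cast h.2
  have h3 := Int.sub_one_lt_floor x
  have h4 := Int.ceil_lt_add_one x
  rw [abs_le]
  constructor <;> linarith

theorem round {W E C : Type} [Fintype W] [Fintype E] [Fintype C] [DecidableEq W] [DecidableEq E]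
    [DecidableEq C] (s t : E → W) (D : Finset E) (hbip : ∀ e ∈ D, ∀ e' ∈ D, s e ≠ t e')
    (cl : E → C) (f : E → ℝ) :
    ∃ z : E → ℤ, (∀ e ∈ D, ⌊f e⌋ ≤ z e ∧ z e ≤ ⌈f e⌉) ∧
      (∀ v, ⌊dsum s t D f v⌋ ≤ dsum s t D z v ∧ dsum s t D z v ≤ ⌈dsum s t D f v⌉) ∧
      ∀ v c, |((dsum s t (D.filter fun e => cl e = c) z v : ℤ) : ℝ) -
        dsum s t (D.filter fun e => cl e = c) f v| ≤ 1 := by
  obtain ⟨g, hg⟩ : ∃ g : E → ℝ, ∀ e, g e = if e ∈ D then f e else 0 := ⟨_, fun _ => rfl⟩
  have hg0 : ∀ e, e ∉ D → g e = 0 := fun e he => by rw [hg, if_neg he]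
  have hg1 : ∀ e ∈ D, g e = f e := fun e he => by rw [hg, if_pos he]
  obtain ⟨z, hz, hb⟩ := round_circ (nsrc s cl) (ntgt t cl)
    (Sum.elim g (Sum.elim (net s t cl g) fun v => ∑ c, net s t cl g (v, c))) (by
      rintro (_ | v | p)
      · rw [bd_none]; exact sum_net s t cl g
      · rw [bd_vertex]; simp
      · rw [bd_class]; simp)
  have hz0 : ∀ e, e ∉ D → z (.inl e) = 0 := fun e he => by
    have := hz (.inl e)
    simp only [Sum.elim_inl, hg0 e he, Int.floor_zero, Int.ceil_zero] at this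
    omega
  have e1 : ∀ p, z (.inr (.inl p)) = net s t cl (fun e => z (.inl e)) p := fun p => by
    have := hb (some (.inr p))
    rw [bd_class] at this
    omega
  have e2 : ∀ v, z (.inr (.inr v)) = ∑ c, net s t cl (fun e => z (.inl e)) (v, c) := fun v => by
    have := hb (some (.inl v))
    rw [bd_vertex] at this
    simp only [e1] at this
    omega
  have hcase : ∀ v, (∀ e ∈ D, t e ≠ v) ∨ (∀ e ∈ D, s e ≠ v) := fun v => by
    by_contra h
    push Not at h
    obtain ⟨⟨e, he, h1⟩, e', he', h2⟩ := h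
    exact hbip e' he' e he (h2.trans h1.symm)
  refine ⟨fun e => z (.inl e), fun e he => ?_, fun v => ?_, fun v c => ?_⟩
  · have := hz (.inl e)
    rwa [Sum.elim_inl, hg1 e he] at this
  · have h1 := hz (.inr (.inr v))
    simp only [Sum.elim_inr, e2] at h1
    rw [← dsum_congr s t D g f hg1]
    rcases hcase v with h | h
    · rwa [((net_dsum s t cl D g hg0 v).1 h).2, ((net_dsum s t cl D _ hz0 v).1 h).2] at h1
    · rw [((net_dsum s t cl D g hg0 v).2 h).2, ((net_dsum s t cl D _ hz0 v).2 h).2,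
        Int.floor_neg, Int.ceil_neg] at h1
      omega
  · have h1 := hz (.inr (.inl (v, c)))
    simp only [Sum.elim_inr, Sum.elim_inl, e1] at h1
    rw [← dsum_congr s t _ g f fun e he => hg1 e (mem_filter.1 he).1]
    apply near_of_round
    rcases hcase v with h | h
    · rwa [((net_dsum s t cl D g hg0 v).1 h).1, ((net_dsum s t cl D _ hz0 v).1 h).1] at h1
    · rw [((net_dsum s t cl D g hg0 v).2 h).1, ((net_dsum s t cl D _ hz0 v).2 h).1,
        Int.floor_neg, Int.ceil_neg] at h1
      omega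

end Pool.Agent.P.MP_0ad50f_co
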