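import Pool.Agent.P.MP_0ad50f_co.Main

namespace Pool.Agent.P.MP_0ad50f_co.VariantLargeDegree

/-- Every finite simple graph of sufficiently large minimum degree has a majority neighbour sum
distinguishing edge-colouring with colours `1, …, 5`. -/
theorem result : ∃ δ₀ : ℕ, ∀ (V : Type) [Fintype V] [DecidableEq V] (G : SimpleGraph V)
    [DecidableRel G.Adj], (∀ v, δ₀ ≤ G.degree v) →
    ∃ c : Sym2 V → ℕ, (∀ e ∈ G.edgeSet, 1 ≤ c e ∧ c e ≤ 5) ∧
      (∀ u v, G.Adj u v →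
        ∑ w ∈ G.neighborFinset u, c s(u, w) ≠ ∑ w ∈ G.neighborFinset v, c s(v, w)) ∧
      ∀ v a, 2 * ((G.neighborFinset v).filter fun w => c s(v, w) = a).card ≤ G.degree v :=
  Pool.Agent.P.MP_0ad50f_co.main

end Pool.Agent.P.MP_0ad50f_co.VariantLargeDegree
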